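import Pool.Agent.V5helper57.Win.Tight

/-!
# The invariance principle for a model
-/

set_option autoImplicit false

namespace Pool.Agent.V5helper57.Win

open Finset Filter Topology MeasureTheory ProbabilityTheory Pool.Agent.Y722.HS Pool.Agent.X280.BP
open scoped NNReal ENNReal

variable {ι : Type} [Fintype ι] [DecidableEq ι]
variable {Z : ∀ p : ℕ, (ι → ZMod p) → ℝ} {B κ K0 K1 : ℝ} {Q : ℕ → (ι → ℤ) → ℝ}
variable {Φ : (ℝ → ℝ) → ℝ} {Mb Kf : ℝ}
variable {Ω : Type*} [MeasurableSpace Ω] {P : Measure Ω} {W : ℝ≥0 → Ω → ℝ}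

theorem step_near {n : ℕ} {f : ℝ → ℝ} {η ε : ℝ} (hf : ∀ s t, 0 ≤ s → s ≤ 1 → 0 ≤ t → t ≤ 1 → |s - t| < η → |f s - f t| ≤ ε)
    (hn : 1 / ((n + 1 : ℕ) : ℝ) < η) (t : ℝ) (h0 : 0 ≤ t) (h1 : t ≤ 1) :
    |stepf n (fun k => f (((k : ℕ) + 1 : ℝ) / ((n + 1 : ℕ) : ℝ))) t - f t| ≤ ε := by
  have hN : (0 : ℝ) < ((n + 1 : ℕ) : ℝ) := by positivity
  obtain ⟨h2, h3⟩ := ix_spec n h0 h1
  unfold stepf
  refine hf _ _ (by positivity) ?_ h0 h1 ?_
  · rw [div_le_one hN]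
    exact_mod_cast (ix n t).2
  · rw [abs_lt]
    have e : (((ix n t : ℕ) : ℝ) + 1) / ((n + 1 : ℕ) : ℝ) = ((ix n t : ℕ) : ℝ) / ((n + 1 : ℕ) : ℝ) + 1 / ((n + 1 : ℕ) : ℝ) := by
      rw [add_div]
    have h4 : 0 < 1 / ((n + 1 : ℕ) : ℝ) := by positivity
    constructor
    · linarith
    · rw [e]
      linarith

/-- The functionals of the step functions converge for a continuous function. -/
theorem Fun.tendsto (hΦ : Fun Φ Mb Kf) {f : ℝ → ℝ} (hf : Continuous f) :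
    Tendsto (fun n : ℕ => Φ (stepf n (fun k => f (((k : ℕ) + 1 : ℝ) / ((n + 1 : ℕ) : ℝ))))) atTop (𝓝 (Φ f)) := by
  have hu := isCompact_Icc.uniformContinuousOn_of_continuous (hf.continuousOn (s := Set.Icc 0 1))
  rw [Metric.uniformContinuousOn_iff] at hu
  rw [Metric.tendsto_atTop]
  intro ε hε
  have hK := hΦ.Kf0
  obtain ⟨η, hη, h⟩ := hu (ε / (Kf + 1)) (by positivity)
  obtain ⟨N, hN⟩ := exists_nat_one_div_lt hη
  refine ⟨N, fun n hn => ?_⟩
  rw [Real.dist_eq]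
  have h1 := hΦ.lip (stepf n (fun k => f (((k : ℕ) + 1 : ℝ) / ((n + 1 : ℕ) : ℝ)))) f (ε / (Kf + 1)) (by positivity)
    (step_near (η := η) (fun s t hs0 hs1 ht0 ht1 hst => by
      have := h s ⟨hs0, hs1⟩ t ⟨ht0, ht1⟩ (by rwa [Real.dist_eq])
      rw [Real.dist_eq] at this
      exact this.le) (by
      refine lt_of_le_of_lt ?_ hN
      have : (N : ℝ) + 1 ≤ ((n + 1 : ℕ) : ℝ) := by exact_mod_cast Nat.succ_le_succ hn
      exact one_div_le_one_div_of_le (by positivity) this))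
  refine lt_of_le_of_lt h1 ?_
  rw [mul_div_assoc', div_lt_iff₀ (by positivity)]
  nlinarith

/-- The step functions of the Brownian motion. -/
theorem brown_step (hW : IsBrownianReal W P) (hΦ : Fun Φ Mb Kf) :
    Tendsto (fun n : ℕ => ∫ ω, Φ (stepf n (fun k => W (gr (n + 1) k) ω)) ∂P) atTop
      (𝓝 (∫ ω, Φ (fun t : ℝ => W t.toNNReal ω) ∂P)) := by
  have hPr : IsProbabilityMeasure P := hW.isGaussianProcess.isProbabilityMeasure
  apply tendsto_integral_of_dominated_convergence (fun _ => Mb)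
  · intro n
    have h1 : AEMeasurable (fun ω => (fun k => W (gr (n + 1) k) ω : Fin (n + 1) → ℝ)) P :=
      aemeasurable_pi_lambda _ fun k => hW.aemeasurable _
    exact ((hΦ.step_cont n).measurable.comp_aemeasurable h1).aestronglyMeasurable
  · exact integrable_const _
  · intro n
    refine Filter.Eventually.of_forall fun ω => ?_
    rw [Real.norm_eq_abs]
    exact hΦ.bd _
  · filter_upwards [hW.cont] with ω hω
    have hf : Continuous (fun t : ℝ => W t.toNNReal ω) := hω.comp continuous_real_toNNReal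
    have h1 := hΦ.tendsto hf
    refine h1.congr fun n => ?_
    congr 2
    funext k
    congr 1
    apply NNReal.coe_injective
    rw [Real.coe_toNNReal _ (by positivity)]
    unfold gr
    push_cast
    rfl

/-- **The invariance principle.** -/
theorem Model.donsker (M : Model Z B κ K0 K1 Q) (hW : IsBrownianReal W P) (hΦ : Fun Φ Mb Kf) {ε : ℝ} (hε : 0 < ε) :
    ∀ᶠ l : ℝ in atTop, ∀ T : ℝ, 0 ≤ T → ∀ H : ℕ, Y (T + l) ^ 11 ≤ H →
      |EB H (fun c => Φ (path Q κ T l c)) - ∫ ω, Φ (fun t : ℝ => W t.toNNReal ω) ∂P| ≤ ε := by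
  have hK := hΦ.Kf0
  have hMb := hΦ.Mb0
  obtain ⟨δ, hδd⟩ : ∃ δ : ℝ, δ = ε / (4 * (Kf + 1)) := ⟨_, rfl⟩
  have hδ : 0 < δ := by rw [hδd]; positivity
  have hKδ : Kf * δ ≤ ε / 4 := by
    have : (Kf + 1) * δ = ε / 4 := by rw [hδd]; field_simp
    nlinarith
  have hlim1 : Tendsto (fun n : ℕ => 2 * Mb * (2916 * (91 * B ^ 4) * 1024) / (((n + 1 : ℕ) : ℝ) * δ ^ 4)) atTop (𝓝 0) := by
    have h1 : Tendsto (fun n : ℕ => ((n + 1 : ℕ) : ℝ) * δ ^ 4) atTop atTop :=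
      (tendsto_natCast_atTop_atTop.comp (tendsto_add_atTop_nat 1)).atTop_mul_const (by positivity)
    exact tendsto_const_nhds.div_atTop h1
  have hlim2 := brown_step hW hΦ
  rw [Metric.tendsto_atTop] at hlim2
  obtain ⟨N2, hN2⟩ := hlim2 (ε / 4) (by positivity)
  obtain ⟨n, hn1, hn2⟩ := ((hlim1.eventually (ge_mem_nhds (show (0 : ℝ) < ε / 4 by positivity))).and
    (eventually_ge_atTop N2)).exists
  have h3 := hN2 n hn2
  rw [Real.dist_eq] at h3
  have h4 := M.fdd hW.toIsPreBrownianReal (n := n + 1) (Nat.succ_pos n) (fun v => Φ (stepf n v)) (hΦ.step_cont n)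
    (fun v => hΦ.bd _) (ε := ε / 4) (by positivity)
  filter_upwards [M.tight hΦ n hδ, h4] with l hl1 hl2 T hT H hH
  have h5 := hl1 T hT H hH
  have h6 := hl2 T hT H hH
  rw [abs_le] at h5 h6 ⊢
  rw [abs_lt] at h3
  constructor <;> linarith [h3.1, h3.2, h5.1, h5.2, h6.1, h6.2]

end Pool.Agent.V5helper57.Win
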