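import Pool.Agent.V5helper57.Win.Main
import Pool.Agent.X280.BP.Six3

/-!
# The invariance principle for the products of families of elliptic curves
-/

set_option autoImplicit false

namespace Pool.Agent.V5helper57.Win

open Finset Filter Topology MeasureTheory ProbabilityTheory Pool.Agent.Y722.HS Pool.Agent.X280.BP
open scoped NNReal ENNReal

variable {ι : Type} [Fintype ι] [DecidableEq ι]
variable {a : ∀ p : ℕ, (ι → ZMod p) → ℝ} {G : ∀ p : ℕ, (ι → ZMod p) → Prop} {r C : ℝ}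

theorem dat_var (D : Dat a G r C) : ∃ K : ℝ, 0 ≤ K ∧ ∀ x : ℕ,
    |∑ p ∈ (Ico 0 x).filter Nat.Prime, vv (ZZ a G) p - LL 0 x| ≤ K := by
  classical
  obtain ⟨T, hT⟩ : ∃ T : ℝ, T = ∑' n : ℕ, 1 / ((n : ℝ) * √n) := ⟨_, rfl⟩
  have hT0 : 0 ≤ T := by rw [hT]; exact tsum_nonneg fun n => by positivity
  obtain ⟨Kv, hKv⟩ : ∃ Kv : ℝ, Kv = 22 + 31 * C + 5 * |r + 1 / 2| := ⟨_, rfl⟩
  have hC := D.C1
  have hKv0 : 0 ≤ Kv := by rw [hKv]; positivity
  refine ⟨(Kv + 2) * T, by positivity, fun x => ?_⟩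
  unfold LL
  rw [← Finset.sum_sub_distrib]
  have h5 : ∀ p ∈ (Ico 0 x).filter Nat.Prime, |vv (ZZ a G) p - 1 / p| ≤ (Kv + 2) * (1 / ((p : ℝ) * √p)) := by
    intro p hp
    have hpp : p.Prime := (Finset.mem_filter.mp hp).2
    have : NeZero p := ⟨hpp.ne_zero⟩
    have hp0 : (0 : ℝ) < p := by exact_mod_cast hpp.pos
    have hsq0 : 0 < √(p : ℝ) := Real.sqrt_pos.2 hp0
    rw [vv_eq]
    by_cases h5 : 5 ≤ p
    · refine (D.var hpp h5).trans ?_
      rw [← hKv]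
      have : 0 ≤ 2 * (1 / ((p : ℝ) * √p)) := by positivity
      have e : Kv / ((p : ℝ) * √p) = Kv * (1 / ((p : ℝ) * √p)) := by ring
      rw [e]
      linarith
    · have e : EM p (fun c => ZZ a G p c ^ 2) = 0 := by
        have : (fun c => ZZ a G p c ^ 2) = fun _ => (0 : ℝ) := by
          funext c
          unfold ZZ
          rw [if_neg h5]
          ring
        rw [this, EM_const']
      rw [e, zero_sub, abs_neg, abs_of_pos (by positivity)]
      have hs2 : √(p : ℝ) ≤ 2 := by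
        rw [Real.sqrt_le_iff]
        have : (p : ℝ) ≤ 4 := by exact_mod_cast (by omega : p ≤ 4)
        constructor <;> linarith
      have h12 : (1 : ℝ) / p ≤ 2 * (1 / ((p : ℝ) * √p)) := by
        rw [mul_one_div, div_le_div_iff₀ hp0 (by positivity)]
        nlinarith
      have : 0 ≤ Kv * (1 / ((p : ℝ) * √p)) := by positivity
      linarith
  refine (Finset.abs_sum_le_sum_abs _ _).trans ((Finset.sum_le_sum h5).trans ?_)
  rw [← Finset.mul_sum]
  have h6 : ∑ p ∈ (Ico 0 x).filter Nat.Prime, 1 / ((p : ℝ) * √p) ≤ T := by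
    rw [hT]
    exact summable_three.sum_le_tsum _ fun n _ => by positivity
  exact mul_le_mul_of_nonneg_left h6 (by linarith)

theorem dat_model (D : Dat a G r C) (Q : ℕ → (ι → ℤ) → ℝ) (K2 : ℝ) (hQ : ∀ y c, |Q y c - logP a G y c| ≤ K2) :
    ∃ K0 K1 : ℝ, Model (ZZ a G) 10 (r + 1 / 2) K0 K1 Q := by
  obtain ⟨K0', hK0', hnear⟩ := D.near
  obtain ⟨K1, hK1, hvar⟩ := dat_var D
  have hK2 : 0 ≤ K2 := (abs_nonneg _).trans (hQ 0 0)
  refine ⟨K0' + K2, K1, ⟨D.sys, by positivity, hK1, fun y c => ?_, hvar⟩⟩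
  have h1 := hnear y c
  have h2 := hQ y c
  rw [abs_le] at h1 h2 ⊢
  constructor <;> linarith [h1.1, h1.2, h2.1, h2.2]

/-- The path of a curve on the window `[T, T + l]`. -/
noncomputable def cpath (W : WeierstrassCurve ℤ) (κ T l : ℝ) (t : ℝ) : ℝ :=
  (Real.log (bsd W (Y (T + t * l))) - Real.log (bsd W (Y T)) - κ * (t * l)) / √l

/-- **The invariance principle for a family of curves.** -/
theorem donsker_of {W : (ι → ℤ) → WeierstrassCurve ℤ} {V : ∀ p : ℕ, (ι → ZMod p) → WeierstrassCurve (ZMod p)}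
    (h : Red W V) (D : Dat (trc V) (fun p c => (V p c).Δ ≠ 0) r C)
    {Ω : Type*} [MeasurableSpace Ω] {P : Measure Ω} {X : ℝ≥0 → Ω → ℝ} (hX : IsBrownianReal X P)
    {Φ : (ℝ → ℝ) → ℝ} {Mb Kf : ℝ} (hΦ : Fun Φ Mb Kf) {ε : ℝ} (hε : 0 < ε) :
    ∀ᶠ l : ℝ in atTop, ∀ T : ℝ, 0 ≤ T → ∀ H : ℕ, Y (T + l) ^ 11 ≤ H →
      |EB H (fun c => Φ (cpath (W c) (r + 1 / 2) T l)) - ∫ ω, Φ (fun t : ℝ => X t.toNNReal ω) ∂P| ≤ ε := by
  obtain ⟨K0, K1, M⟩ := dat_model D (fun y c => lq (W c) y) 2 (fun y c => h.lq_near y c)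
  have h1 := M.donsker hX hΦ hε
  refine h1.mono fun l hl T hT H hH => ?_
  have h2 := hl T hT H hH
  have e : ∀ c, path (fun y c => lq (W c) y) (r + 1 / 2) T l c = cpath (W c) (r + 1 / 2) T l := by
    intro c
    funext t
    unfold path cpath
    rw [bsd_eq, Real.log_exp, bsd_eq, Real.log_exp]
  simp only [e] at h2
  exact h2

end Pool.Agent.V5helper57.Win
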