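import Pool.Agent.V5helper57.Win.Char2
import Mathlib.Probability.BrownianMotion.Basic

/-!
# The finite dimensional distributions of the Brownian motion
-/

set_option autoImplicit false

namespace Pool.Agent.V5helper57.Win

open Finset Filter Topology MeasureTheory ProbabilityTheory
open scoped NNReal ENNReal

/-! ### The limit variance on a grid -/

theorem vlim_zero {n : ℕ} (t : Fin n → ℝ) : vlim (0 : Fin n → ℝ) t = 0 := by
  unfold vlim; simp

theorem vlim_sq {n : ℕ} (τ : Fin n → ℝ) : vlim τ (fun k => ((k : ℕ) + 1 : ℝ) / n) =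
    (∑ i : Fin n, (∑ k : Fin n, if i ≤ k then τ k else 0) ^ 2) / n := by
  have e : ∀ k l : Fin n, min (((k : ℕ) + 1 : ℝ) / n) (((l : ℕ) + 1 : ℝ) / n) =
      (∑ i : Fin n, (if i ≤ k then (1 : ℝ) else 0) * (if i ≤ l then (1 : ℝ) else 0)) / n := by
    intro k l
    have h1 : ∑ i : Fin n, (if i ≤ k then (1 : ℝ) else 0) * (if i ≤ l then (1 : ℝ) else 0) =
        ((min k l : Fin n) : ℕ) + 1 := by
      have h2 : ∀ i : Fin n, (if i ≤ k then (1 : ℝ) else 0) * (if i ≤ l then (1 : ℝ) else 0) =
          if i ≤ min k l then 1 else 0 := by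
        intro i
        by_cases h1 : i ≤ k <;> by_cases h2 : i ≤ l <;> simp [h1, h2]
      simp only [h2]
      rw [Finset.sum_boole]
      have h3 : (Finset.univ.filter fun i : Fin n => i ≤ min k l) = Finset.Iic (min k l) := by
        ext i; simp
      rw [h3, Fin.card_Iic]
      push_cast
      rfl
    rw [h1]
    rcases le_total k l with h | h
    · rw [min_eq_left h, min_eq_left]
      have : ((k : ℕ) : ℝ) ≤ ((l : ℕ) : ℝ) := by exact_mod_cast h
      gcongr
    · rw [min_eq_right h, min_eq_right]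
      have : ((l : ℕ) : ℝ) ≤ ((k : ℕ) : ℝ) := by exact_mod_cast h
      gcongr
  unfold vlim
  simp only [e]
  rw [Finset.sum_div]
  have e2 : ∀ i : Fin n, (∑ k : Fin n, if i ≤ k then τ k else 0) ^ 2 / (n : ℝ) =
      ∑ k, ∑ l, τ k * τ l * ((if i ≤ k then (1 : ℝ) else 0) * (if i ≤ l then (1 : ℝ) else 0) / n) := by
    intro i
    rw [sq, Finset.sum_mul_sum, Finset.sum_div]
    refine Finset.sum_congr rfl fun k _ => ?_
    rw [Finset.sum_div]
    refine Finset.sum_congr rfl fun l _ => ?_
    by_cases h1 : i ≤ k <;> by_cases h2 : i ≤ l <;> simp [h1, h2]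
    ring
  simp only [e2]
  symm
  rw [Finset.sum_comm]
  refine Finset.sum_congr rfl fun k _ => ?_
  rw [Finset.sum_comm]
  refine Finset.sum_congr rfl fun l _ => ?_
  rw [Finset.sum_div, Finset.mul_sum]

theorem vlim_pos {n : ℕ} (hn : 0 < n) (τ : Fin n → ℝ) (h : τ ≠ 0) : 0 < vlim τ (fun k => ((k : ℕ) + 1 : ℝ) / n) := by
  classical
  have hn0 : (0 : ℝ) < n := by exact_mod_cast hn
  rw [vlim_sq]
  apply div_pos _ hn0
  obtain ⟨k0, hk0⟩ : ∃ k, τ k ≠ 0 := by
    by_contra hcon
    push Not at hcon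
    exact h (funext hcon)
  obtain ⟨m, hm, hmax⟩ := Finset.exists_max_image (Finset.univ.filter fun k => τ k ≠ 0) (fun k => k)
    ⟨k0, by simp [hk0]⟩
  have hm' : τ m ≠ 0 := (Finset.mem_filter.1 hm).2
  have h1 : ∑ k : Fin n, (if m ≤ k then τ k else 0) = τ m := by
    rw [Finset.sum_eq_single m]
    · simp
    · intro b _ hb
      split_ifs with h2
      · by_contra h3
        have h4 := hmax b (by simp [h3])
        exact hb (le_antisymm h4 h2)
      · rfl
    · intro h2
      exact absurd (Finset.mem_univ m) h2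
  refine Finset.sum_pos' (fun i _ => sq_nonneg _) ⟨m, Finset.mem_univ m, ?_⟩
  rw [h1]
  positivity

/-! ### The Brownian motion -/

variable {Ω : Type*} [MeasurableSpace Ω] {P : Measure Ω} {B : ℝ≥0 → Ω → ℝ}

theorem comb_var (hB : IsPreBrownianReal B P) {n : ℕ} (τ : Fin n → ℝ) (t : Fin n → ℝ≥0) :
    Var[fun ω => ∑ k, τ k * B (t k) ω; P] = vlim τ (fun k => (t k : ℝ)) := by
  have hPr : IsProbabilityMeasure P := hB.isGaussianProcess.isProbabilityMeasure
  have hm : ∀ k, MemLp (fun ω => τ k * B (t k) ω) 2 P := fun k =>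
    (hB.isGaussianProcess.hasGaussianLaw_eval (t k)).memLp_two.const_mul (τ k)
  have hX : AEMeasurable (fun ω => ∑ k, τ k * B (t k) ω) P :=
    Finset.aemeasurable_fun_sum _ fun k _ => (hB.aemeasurable (t k)).const_mul _
  rw [← covariance_self hX]
  have e := covariance_fun_sum_left (X := fun k ω => τ k * B (t k) ω) (Y := fun ω => ∑ k, τ k * B (t k) ω) (μ := P)
    hm (memLp_finsetSum _ fun k _ => hm k)
  rw [e]
  unfold vlim
  refine Finset.sum_congr rfl fun k _ => ?_
  rw [covariance_fun_sum_right (X := fun k ω => τ k * B (t k) ω) hm (hm k)]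
  refine Finset.sum_congr rfl fun l _ => ?_
  rw [covariance_const_mul_left, covariance_const_mul_right, hB.covariance_fun_eval]
  push_cast
  ring

theorem comb_law (hB : IsPreBrownianReal B P) {n : ℕ} (τ : Fin n → ℝ) (t : Fin n → ℝ≥0) :
    P.map (fun ω => ∑ k, τ k * B (t k) ω) = gaussianReal 0 (vlim τ (fun k => (t k : ℝ))).toNNReal := by
  have hg : HasGaussianLaw (fun ω => ∑ k, τ k * B (t k) ω) P := by
    have h1 := (((hB.isGaussianProcess.comp_right t).smul τ).hasGaussianLaw_fun_sum (I := Finset.univ))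
    simpa using h1
  rw [hg.map_eq_gaussianReal, comb_var hB]
  congr 1
  rw [integral_finsetSum]
  · refine Finset.sum_eq_zero fun k _ => ?_
    rw [integral_const_mul, hB.integral_eval, mul_zero]
  · intro k _
    exact (hB.integrable_eval (t k)).const_mul _

/-- The characteristic function of the finite dimensional distributions. -/
theorem comb_char (hB : IsPreBrownianReal B P) {n : ℕ} (τ : Fin n → ℝ) (t : Fin n → ℝ≥0)
    (hv : 0 ≤ vlim τ (fun k => (t k : ℝ))) :
    ∫ ω, Complex.exp (((∑ k, τ k * B (t k) ω : ℝ) : ℂ) * Complex.I) ∂P =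
      ((Real.exp (-(vlim τ (fun k => (t k : ℝ)) / 2)) : ℝ) : ℂ) := by
  have hX : AEMeasurable (fun ω => ∑ k, τ k * B (t k) ω) P :=
    Finset.aemeasurable_fun_sum _ fun k _ => (hB.aemeasurable (t k)).const_mul _
  have h1 : charFun (P.map (fun ω => ∑ k, τ k * B (t k) ω)) 1 =
      ∫ ω, Complex.exp (((∑ k, τ k * B (t k) ω : ℝ) : ℂ) * Complex.I) ∂P := by
    rw [charFun_apply_real, integral_map hX (by fun_prop)]
    simp
  rw [← h1, comb_law hB, charFun_gaussianReal]
  push_cast
  rw [Real.coe_toNNReal _ hv]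
  congr 1
  ring

end Pool.Agent.V5helper57.Win
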