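import Pool.Agent.V5helper57.Win.Time

/-!
# Windows: the weights and the truncation
-/

set_option autoImplicit false

namespace Pool.Agent.V5helper57.Win

open Finset Filter Topology Pool.Agent.Y722.HS Pool.Agent.X280.BP Pool.Agent.X280.UC Pool.Agent.X280.HG

variable {ι : Type} [Fintype ι] [DecidableEq ι]

/-- A statistic `Q` which is up to a bounded error `κ ∑ 1 / p` minus a sum of centred local data `Z` with variances close to `1 / p`. -/
structure Model (Z : ∀ p : ℕ, (ι → ZMod p) → ℝ) (B κ K0 K1 : ℝ) (Q : ℕ → (ι → ℤ) → ℝ) : Prop where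
  sys : Sys Z B
  K00 : 0 ≤ K0
  K10 : 0 ≤ K1
  near : ∀ (y : ℕ) (c : ι → ℤ), |Q y c + SS Z 0 (y + 1) c - κ * LL 0 (y + 1)| ≤ K0
  var : ∀ x : ℕ, |∑ p ∈ (Ico 0 x).filter Nat.Prime, vv Z p - LL 0 x| ≤ K1

/-- The normalised path on the window `[T, T + l]`. -/
noncomputable def path (Q : ℕ → (ι → ℤ) → ℝ) (κ T l : ℝ) (c : ι → ℤ) (t : ℝ) : ℝ :=
  (Q (Y (T + t * l)) c - Q (Y T) c - κ * (t * l)) / √l

variable {Z : ∀ p : ℕ, (ι → ZMod p) → ℝ} {B κ K0 K1 : ℝ} {Q : ℕ → (ι → ℤ) → ℝ}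

theorem Ico_prime_split (F : ℕ → ℝ) {a b : ℕ} (h : a ≤ b) : ∑ p ∈ (Ico 0 b).filter Nat.Prime, F p =
    ∑ p ∈ (Ico 0 a).filter Nat.Prime, F p + ∑ p ∈ (Ico a b).filter Nat.Prime, F p := by
  rw [← Finset.sum_union]
  · congr 1
    rw [← Finset.filter_union, Finset.Ico_union_Ico_eq_Ico (Nat.zero_le a) h]
  · rw [Finset.disjoint_left]
    intro p hp hp2
    rw [Finset.mem_filter, Finset.mem_Ico] at hp hp2
    omega

theorem SS_split {a b : ℕ} (h : a ≤ b) (c : ι → ℤ) : SS Z 0 b c = SS Z 0 a c + SS Z a b c :=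
  Ico_prime_split _ h

theorem SS_add {a b d : ℕ} (h : a ≤ b) (h' : b ≤ d) (c : ι → ℤ) : SS Z a d c = SS Z a b c + SS Z b d c := by
  have h1 := SS_split (Z := Z) h c
  have h2 := SS_split (Z := Z) h' c
  have h3 := SS_split (Z := Z) (h.trans h') c
  linarith

theorem LL_split {a b : ℕ} (h : a ≤ b) : LL 0 b = LL 0 a + LL a b :=
  Ico_prime_split _ h

theorem Model.path_near (M : Model Z B κ K0 K1 Q) : ∃ K : ℝ, 0 ≤ K ∧ ∀ T l : ℝ, 0 ≤ T → 0 < l → ∀ t : ℝ, 0 ≤ t → ∀ c,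
    |√l * path Q κ T l c t + SS Z (Y T + 1) (Y (T + t * l) + 1) c| ≤ K := by
  obtain ⟨C, hC, h⟩ := LL_Y
  refine ⟨2 * K0 + |κ| * (2 * C), by have := M.K00; positivity, fun T l hT hl t ht c => ?_⟩
  have hs : √l ≠ 0 := (Real.sqrt_pos.2 hl).ne'
  have htl : 0 ≤ t * l := by positivity
  have hYY : Y T + 1 ≤ Y (T + t * l) + 1 := by
    have := Y_mono (by linarith : T ≤ T + t * l)
    omega
  have e0 := SS_split (Z := Z) hYY c
  have h1 := M.near (Y (T + t * l)) c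
  have h2 := M.near (Y T) c
  have h3 := h T hT
  have h4 := h (T + t * l) (by positivity)
  have h5 : |κ * ((LL 0 (Y (T + t * l) + 1) - (T + t * l)) - (LL 0 (Y T + 1) - T))| ≤ |κ| * (2 * C) := by
    rw [abs_mul]
    refine mul_le_mul_of_nonneg_left ?_ (abs_nonneg _)
    refine (abs_sub _ _).trans ?_
    linarith
  have e : √l * path Q κ T l c t + SS Z (Y T + 1) (Y (T + t * l) + 1) c =
      (Q (Y (T + t * l)) c + SS Z 0 (Y (T + t * l) + 1) c - κ * LL 0 (Y (T + t * l) + 1)) -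
      (Q (Y T) c + SS Z 0 (Y T + 1) c - κ * LL 0 (Y T + 1)) +
      κ * ((LL 0 (Y (T + t * l) + 1) - (T + t * l)) - (LL 0 (Y T + 1) - T)) := by
    unfold path
    rw [mul_div_cancel₀ _ hs, e0]
    ring
  rw [e]
  refine (abs_add_le _ _).trans ?_
  have h6 := abs_sub (Q (Y (T + t * l)) c + SS Z 0 (Y (T + t * l) + 1) c - κ * LL 0 (Y (T + t * l) + 1))
    (Q (Y T) c + SS Z 0 (Y T + 1) c - κ * LL 0 (Y T + 1))
  linarith

/-- Weights which are step functions. -/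
noncomputable def wt {n : ℕ} (τ : Fin n → ℝ) (m : Fin n → ℕ) (p : ℕ) : ℝ := -∑ k, if p ≤ m k then τ k else 0

theorem wt_abs {n : ℕ} (τ : Fin n → ℝ) (m : Fin n → ℕ) (p : ℕ) : |wt τ m p| ≤ ∑ k, |τ k| := by
  unfold wt
  rw [abs_neg]
  refine (Finset.abs_sum_le_sum_abs _ _).trans (Finset.sum_le_sum fun k _ => ?_)
  split_ifs
  · exact le_rfl
  · rw [abs_zero]; exact abs_nonneg _

theorem filter_min (A X m : ℕ) (F : ℕ → ℝ) : ∑ p ∈ (Ico A (X + 1)).filter Nat.Prime, (if p ≤ m then F p else 0) =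
    ∑ p ∈ (Ico A (min X m + 1)).filter Nat.Prime, F p := by
  rw [← Finset.sum_filter]
  apply Finset.sum_congr _ fun p _ => rfl
  ext p
  simp only [Finset.mem_filter, Finset.mem_Ico]
  constructor
  · rintro ⟨⟨⟨h0, h1⟩, h2⟩, h3⟩
    exact ⟨⟨h0, by omega⟩, h2⟩
  · rintro ⟨⟨h0, h1⟩, h2⟩
    exact ⟨⟨⟨h0, by omega⟩, h2⟩, by omega⟩

theorem wt_sum {n : ℕ} (τ : Fin n → ℝ) (m : Fin n → ℕ) (A X : ℕ) (c : ι → ℤ) :
    SP (fun p c => wt τ m p * Z p c) ((Ico A (X + 1)).filter Nat.Prime) c =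
      -∑ k, τ k * SS Z A (min X (m k) + 1) c := by
  unfold SP wt
  have e : ∀ p : ℕ, (-∑ k, if p ≤ m k then τ k else 0) * Z p (red p c) =
      -∑ k, τ k * (if p ≤ m k then Z p (red p c) else 0) := by
    intro p
    rw [neg_mul, Finset.sum_mul]
    congr 1
    refine Finset.sum_congr rfl fun k _ => ?_
    split_ifs <;> ring
  simp only [e]
  rw [Finset.sum_neg_distrib, Finset.sum_comm]
  congr 1
  refine Finset.sum_congr rfl fun k _ => ?_
  rw [← Finset.mul_sum, filter_min]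
  rfl

theorem wt_var {n : ℕ} (τ : Fin n → ℝ) (m : Fin n → ℕ) (A X : ℕ) :
    VP (fun p c => wt τ m p * Z p c) ((Ico A (X + 1)).filter Nat.Prime) =
      ∑ k, ∑ l, τ k * τ l * ∑ p ∈ (Ico A (min X (min (m k) (m l)) + 1)).filter Nat.Prime, vv Z p := by
  unfold VP
  have e1 : ∀ p ∈ (Ico A (X + 1)).filter Nat.Prime, vv (fun p c => wt τ m p * Z p c) p = wt τ m p ^ 2 * vv Z p := by
    intro p hp
    have hpp : p.Prime := (Finset.mem_filter.1 hp).2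
    have : NeZero p := ⟨hpp.ne_zero⟩
    rw [vv_eq, vv_eq]
    have e2 : (fun c : ι → ZMod p => (wt τ m p * Z p c) ^ 2) = fun c => wt τ m p ^ 2 * Z p c ^ 2 := by
      funext c; ring
    rw [e2, EM_mul']
  rw [Finset.sum_congr rfl e1]
  have e3 : ∀ p : ℕ, wt τ m p ^ 2 * vv Z p = ∑ k, ∑ l, τ k * τ l * (if p ≤ min (m k) (m l) then vv Z p else 0) := by
    intro p
    unfold wt
    rw [neg_sq, sq, Finset.sum_mul_sum, Finset.sum_mul]
    refine Finset.sum_congr rfl fun k _ => ?_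
    rw [Finset.sum_mul]
    refine Finset.sum_congr rfl fun l _ => ?_
    by_cases h1 : p ≤ m k <;> by_cases h2 : p ≤ m l <;> simp [h1, h2]
  simp only [e3]
  rw [Finset.sum_comm]
  refine Finset.sum_congr rfl fun k _ => ?_
  rw [Finset.sum_comm]
  refine Finset.sum_congr rfl fun l _ => ?_
  rw [← Finset.mul_sum, filter_min]

/-- The limit variance. -/
noncomputable def vlim {n : ℕ} (τ t : Fin n → ℝ) : ℝ := ∑ k, ∑ l, τ k * τ l * min (t k) (t l)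

/-- The truncation of the primes. -/
noncomputable def Yt (K x : ℕ) : ℕ := ⌊(x : ℝ) ^ (1 / ((K : ℝ) + 1))⌋₊

theorem Yt_pow (K x : ℕ) (hx : 1 ≤ x) : Yt K x ^ K ≤ x := by
  have hx0 : (0 : ℝ) < x := by exact_mod_cast hx
  have hx1 : (1 : ℝ) ≤ x := by exact_mod_cast hx
  have hK : (0 : ℝ) < (K : ℝ) + 1 := by positivity
  have h1 : (Yt K x : ℝ) ≤ (x : ℝ) ^ (1 / ((K : ℝ) + 1)) := Nat.floor_le (by positivity)
  have h2 : ((Yt K x : ℝ)) ^ K ≤ ((x : ℝ) ^ (1 / ((K : ℝ) + 1))) ^ K := pow_le_pow_left₀ (by positivity) h1 K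
  have h3 : ((x : ℝ) ^ (1 / ((K : ℝ) + 1))) ^ K ≤ x := by
    rw [← Real.rpow_natCast, ← Real.rpow_mul hx0.le]
    calc (x : ℝ) ^ (1 / ((K : ℝ) + 1) * K) ≤ (x : ℝ) ^ (1 : ℝ) := by
          apply Real.rpow_le_rpow_of_exponent_le hx1
          rw [one_div, inv_mul_le_iff₀ hK]
          linarith
      _ = x := Real.rpow_one _
  exact_mod_cast h2.trans h3

theorem Yt_LL (K : ℕ) : ∃ C : ℝ, 0 ≤ C ∧ ∀ᶠ x : ℕ in atTop, K ≤ Yt K x ∧ Lg x - C ≤ LL 0 (Yt K x + 1) := by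
  obtain ⟨C1, hC1, h⟩ := LL_Lg
  have hK : (0 : ℝ) < (K : ℝ) + 1 := by positivity
  have hK2 : (1 : ℝ) ≤ 2 * ((K : ℝ) + 1) := by linarith
  refine ⟨C1 + Real.log (2 * ((K : ℝ) + 1)), by have := Real.log_nonneg hK2; positivity, ?_⟩
  have hlim : Tendsto (fun x : ℕ => (x : ℝ) ^ (1 / (2 * ((K : ℝ) + 1)))) atTop atTop :=
    (tendsto_rpow_atTop (by positivity)).comp tendsto_natCast_atTop_atTop
  filter_upwards [hlim.eventually_ge_atTop (K + 4), eventually_ge_atTop 3] with x hx hx3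
  have hx0 : (0 : ℝ) < x := by exact_mod_cast (by omega : 0 < x)
  obtain ⟨z, hz⟩ : ∃ z : ℝ, z = (x : ℝ) ^ (1 / (2 * ((K : ℝ) + 1))) := ⟨_, rfl⟩
  rw [← hz] at hx
  have hK0 : (0 : ℝ) ≤ K := by positivity
  have hz2 : (x : ℝ) ^ (1 / ((K : ℝ) + 1)) = z * z := by
    rw [hz, ← Real.rpow_add hx0]
    congr 1
    field_simp
    norm_num
  have hYz : z ≤ Yt K x := by
    have h1 : z * z < (Yt K x : ℝ) + 1 := by
      have h2 : (x : ℝ) ^ (1 / ((K : ℝ) + 1)) < (⌊(x : ℝ) ^ (1 / ((K : ℝ) + 1))⌋₊ : ℝ) + 1 := Nat.lt_floor_add_one _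
      rw [hz2] at h2
      unfold Yt
      rw [hz2]
      exact h2
    nlinarith
  have hlx : 0 < Real.log x := Real.log_pos (by exact_mod_cast (by omega : 1 < x))
  have hY3 : 3 ≤ Yt K x := by
    have : (3 : ℝ) ≤ Yt K x := by linarith
    exact_mod_cast this
  refine ⟨by have : (K : ℝ) ≤ Yt K x := by linarith
             exact_mod_cast this, ?_⟩
  have h4 := (abs_le.1 (h (Yt K x) hY3)).1
  have h5 : Real.log x / (2 * ((K : ℝ) + 1)) ≤ Real.log (Yt K x) := by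
    have h6 : Real.log z ≤ Real.log (Yt K x) := Real.log_le_log (by linarith) hYz
    rw [hz, Real.log_rpow hx0] at h6
    refine le_trans (le_of_eq ?_) h6
    ring
  have h7 : Lg x - Real.log (2 * ((K : ℝ) + 1)) ≤ Lg (Yt K x) := by
    unfold Lg
    rw [← Real.log_div hlx.ne' (by positivity)]
    exact Real.log_le_log (by positivity) h5
  linarith

/-- The truncation of a window. -/
theorem trunc (K : ℕ) : ∃ C : ℝ, 0 ≤ C ∧ ∀ᶠ l : ℝ in atTop, ∀ T : ℝ, 0 ≤ T →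
    K ≤ Yt K (Y (T + l)) ∧ T + l - C ≤ LL 0 (Yt K (Y (T + l)) + 1) ∧ Y T ≤ Yt K (Y (T + l)) := by
  obtain ⟨C1, hC1, h1⟩ := Yt_LL K
  obtain ⟨C2, hC2, h2⟩ := LL_Y
  refine ⟨C1 + 1, by positivity, ?_⟩
  filter_upwards [ev_Y h1, ev_Y (Filter.eventually_ge_atTop 3), Filter.eventually_gt_atTop (C1 + 1 + C2),
    Filter.eventually_ge_atTop 0] with l hl hl3 hl4 hl0 T hT
  obtain ⟨h3, h4⟩ := hl T hT
  have h5 := abs_le.1 (Lg_Y (by linarith : 0 ≤ T + l) (hl3 T hT))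
  have h6 : T + l - (C1 + 1) ≤ LL 0 (Yt K (Y (T + l)) + 1) := by linarith [h5.1]
  refine ⟨h3, h6, ?_⟩
  by_contra hcon
  push Not at hcon
  have h7 : LL 0 (Yt K (Y (T + l)) + 1) ≤ LL 0 (Y T + 1) := LL_mono 0 (by omega)
  have h8 := (abs_le.1 (h2 T hT)).2
  linarith

end Pool.Agent.V5helper57.Win
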