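import Pool.Agent.V5helper57.Win.Char

/-!
# The limit of the characteristic functions
-/

set_option autoImplicit false

namespace Pool.Agent.V5helper57.Win

open Finset Filter Topology Pool.Agent.Y722.HS Pool.Agent.X280.BP Pool.Agent.X280.UC Pool.Agent.X280.HG

variable {ι : Type} [Fintype ι] [DecidableEq ι]
variable {Z : ∀ p : ℕ, (ι → ZMod p) → ℝ} {B κ K0 K1 : ℝ} {Q : ℕ → (ι → ℤ) → ℝ}

theorem EB_mono' (H : ℕ) (f g : (ι → ℤ) → ℝ) (h : ∀ c, f c ≤ g c) : EB H f ≤ EB H g := by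
  unfold EB
  gcongr
  exact h _

theorem EB_sum' {κ : Type*} (s : Finset κ) (H : ℕ) (f : κ → (ι → ℤ) → ℝ) :
    EB H (fun c => ∑ i ∈ s, f i c) = ∑ i ∈ s, EB H (f i) := by
  unfold EB
  rw [Finset.sum_comm, Finset.sum_div]

theorem EB_mul' (H : ℕ) (t : ℝ) (f : (ι → ℤ) → ℝ) : EB H (fun c => t * f c) = t * EB H f := by
  unfold EB
  rw [← Finset.mul_sum, mul_div_assoc]

/-- The condition on the height which is needed for the fourth moments. -/
theorem height_ok {d : ℕ} {x H : ℕ} (hx : 512 * 2 ^ d ≤ x) (hH : x ^ 11 ≤ H) :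
    2 ^ d * (x + 1) ^ 10 ≤ 2 * H + 1 := by
  have h0 : 1 ≤ x := by
    have : 1 ≤ 2 ^ d := Nat.one_le_two_pow
    omega
  have h1 : (x + 1) ^ 10 ≤ (2 * x) ^ 10 := Nat.pow_le_pow_left (by omega) 10
  calc 2 ^ d * (x + 1) ^ 10 ≤ 2 ^ d * (2 * x) ^ 10 := Nat.mul_le_mul_left _ h1
    _ = 2 * (512 * 2 ^ d) * x ^ 10 := by ring
    _ ≤ 2 * x * x ^ 10 := by gcongr
    _ = 2 * x ^ 11 := by ring
    _ ≤ 2 * H + 1 := by omega

/-- The variances at the time `t`, truncated at `X`. -/
theorem Model.var_min (M : Model Z B κ K0 K1 Q) {C2 CK : ℝ} (hC2 : 0 ≤ C2) (hCK : 0 ≤ CK) {T l : ℝ} {X : ℕ} (hT : 0 ≤ T)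
    (hl : 0 ≤ l) (hC : ∀ u : ℝ, 0 ≤ u → |LL 0 (Y u + 1) - u| ≤ C2) (hX : T + l - CK ≤ LL 0 (X + 1)) (hX2 : Y T ≤ X)
    {t : ℝ} (ht0 : 0 ≤ t) (ht1 : t ≤ 1) :
    |∑ p ∈ (Ico (Y T + 1) (min X (Y (T + t * l)) + 1)).filter Nat.Prime, vv Z p - t * l| ≤ 2 * K1 + (2 * C2 + CK) := by
  have htl0 : 0 ≤ t * l := by positivity
  have htl1 : t * l ≤ l := mul_le_of_le_one_left hl ht1
  have hYY : Y T ≤ min X (Y (T + t * l)) := le_min hX2 (Y_mono (by linarith))
  have h1 := M.var (min X (Y (T + t * l)) + 1)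
  have h1' := M.var (Y T + 1)
  have hsp := Ico_prime_split (fun p => vv Z p) (Nat.add_le_add_right hYY 1)
  have h2 := hC (T + t * l) (by positivity)
  have h2' := hC T hT
  have h3 : |LL 0 (min X (Y (T + t * l)) + 1) - (T + t * l)| ≤ C2 + CK := by
    rw [abs_le] at h2 ⊢
    rcases le_total (Y (T + t * l)) X with h | h
    · rw [min_eq_right h]
      constructor <;> linarith [h2.1, h2.2]
    · rw [min_eq_left h]
      have h4 : LL 0 (X + 1) ≤ LL 0 (Y (T + t * l) + 1) := LL_mono 0 (by omega)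
      constructor <;> linarith [h2.1, h2.2]
  rw [abs_le] at h1 h1' h2' h3 ⊢
  constructor <;> linarith [h1.1, h1.2, h1'.1, h1'.2, h2'.1, h2'.2, h3.1, h3.2]

theorem Model.ok (M : Model Z B κ K0 K1 Q) {n : ℕ} (τ t : Fin n → ℝ) (ht0 : ∀ k, 0 < t k)
    (ht1 : ∀ k, t k ≤ 1) (hv : 0 < vlim τ t) (K : ℕ) :
    ∀ᶠ l : ℝ in atTop, ∀ T : ℝ, 0 ≤ T → ∀ H : ℕ, Y (T + l) ^ 11 ≤ H →
      (⟨(Ico (Y T + 1) (Yt K (Y (T + l)) + 1)).filter Nat.Prime, Yt K (Y (T + l)), H,
        fun p c => wt τ (fun k => Y (T + t k * l)) p * Z p c,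
        fun c => (∑ k, τ k * path Q κ T l c (t k)) / √(vlim τ t), √(vlim τ t) * √l⟩ : Dat2 ι).Ok K := by
  classical
  obtain ⟨C2, hC2, hLL⟩ := LL_Y
  obtain ⟨Kp, hKp, hpath⟩ := M.path_near
  obtain ⟨CK, hCK, hYt⟩ := trunc K
  obtain ⟨V, hV⟩ : ∃ V : ℝ, V = ∑ k, |τ k| := ⟨_, rfl⟩
  obtain ⟨v, hvd⟩ : ∃ v : ℝ, v = vlim τ t := ⟨_, rfl⟩
  obtain ⟨s, hs⟩ : ∃ s : ℝ, s = √v := ⟨_, rfl⟩
  have hv' : 0 < v := by rw [hvd]; exact hv
  have hs0 : 0 < s := by rw [hs]; exact Real.sqrt_pos.2 hv'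
  have hss : s ^ 2 = v := by rw [hs]; exact Real.sq_sqrt hv'.le
  have hV0 : 0 ≤ V := by rw [hV]; positivity
  have hτV : ∀ k, |τ k| ≤ V := fun k => by
    rw [hV]
    exact Finset.single_le_sum (f := fun k => |τ k|) (fun i _ => abs_nonneg _) (Finset.mem_univ k)
  have hB1 := M.sys.one_le
  have hK : (0 : ℝ) < (K : ℝ) + 1 := by positivity
  have hn : 0 < n := by
    rcases Nat.eq_zero_or_pos n with h | h
    · subst h
      exfalso
      have : vlim τ t = 0 := by unfold vlim; simp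
      linarith
    · exact h
  have hn0 : (0 : ℝ) < n := by exact_mod_cast hn
  obtain ⟨η, hη⟩ : ∃ η : ℝ, η = 1 / ((K : ℝ) + 1) := ⟨_, rfl⟩
  have hη0 : 0 < η := by rw [hη]; positivity
  have hz : ∀ A : ℝ, Tendsto (fun l : ℝ => A / √l) atTop (𝓝 0) := fun A =>
    tendsto_const_nhds.div_atTop Real.tendsto_sqrt_atTop
  have hz2 : ∀ A : ℝ, Tendsto (fun l : ℝ => A / l) atTop (𝓝 0) := fun A =>
    tendsto_const_nhds.div_atTop tendsto_id
  have hz3 : ∀ A : ℝ, Tendsto (fun l : ℝ => A / l ^ 2) atTop (𝓝 0) := fun A =>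
    tendsto_const_nhds.div_atTop (tendsto_pow_atTop (by norm_num))
  obtain ⟨A4, hA4⟩ : ∃ A : ℝ, A = n * (V ^ 4 * (91 * B ^ 4 * (2 * C2 + CK) ^ 2)) / (η * s / (2 * n)) ^ 4 := ⟨_, rfl⟩
  filter_upwards [hYt, ev_Y (eventually_ge_atTop (512 * 2 ^ Fintype.card ι)), eventually_gt_atTop 0,
    (hz (V * B)).eventually (ge_mem_nhds (show (0 : ℝ) < s / ((K : ℝ) + 1) by positivity)),
    (hz (V * Kp)).eventually (ge_mem_nhds (show (0 : ℝ) < η / 2 * s by positivity)),
    (hz2 (V ^ 2 * (2 * K1 + (2 * C2 + CK)))).eventually (ge_mem_nhds (show (0 : ℝ) < v / ((K : ℝ) + 1) by positivity)),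
    (hz3 A4).eventually (ge_mem_nhds hη0)] with l hYl hl512 hL ha hb hc hd T hT H hH
  obtain ⟨hY1, hY2, hY3⟩ := hYl T hT
  have hx512 := hl512 T hT
  obtain ⟨X, hX⟩ : ∃ X : ℕ, X = Yt K (Y (T + l)) := ⟨_, rfl⟩
  obtain ⟨q, hq⟩ : ∃ q : ℝ, q = √l := ⟨_, rfl⟩
  have hq0 : 0 < q := by rw [hq]; exact Real.sqrt_pos.2 hL
  have hqq : q ^ 2 = l := by rw [hq]; exact Real.sq_sqrt hL.le
  rw [← hX] at hY1 hY2 hY3
  rw [← hq, div_le_iff₀ hq0] at ha hb
  rw [div_le_iff₀ hL] at hc
  rw [div_le_iff₀ (by positivity)] at hd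
  have htl0 : ∀ k, 0 ≤ t k * l := fun k => mul_nonneg (ht0 k).le hL.le
  have htl1 : ∀ k, t k * l ≤ l := fun k => mul_le_of_le_one_left hL.le (ht1 k)
  have hTY : ∀ k, Y T ≤ Y (T + t k * l) := fun k => Y_mono (by have := htl0 k; linarith)
  rw [← hvd, ← hs, ← hq, ← hX]
  refine
    { prime := fun p hp => (Finset.mem_filter.1 hp).2
      le := fun p hp => by
        have := (Finset.mem_Ico.1 (Finset.mem_filter.1 hp).1).2
        show p ≤ X
        omega
      pos := by show 0 < s * q; positivity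
      bound := fun p hp c => ?_
      mean := fun p hp _ => ?_
      var := ?_
      size := hY1
      high := ?_
      near := ?_ }
  · show |wt τ (fun k => Y (T + t k * l)) p * Z p c| ≤ s * q / (K + 1)
    have hpp : p.Prime := (Finset.mem_filter.1 hp).2
    have h1 := M.sys.bd p hpp c
    have hp1 : (1 : ℝ) ≤ √(p : ℝ) := Real.one_le_sqrt.2 (by exact_mod_cast hpp.one_lt.le)
    have h2 : B / √(p : ℝ) ≤ B := div_le_self (by linarith) hp1
    have h3 := wt_abs τ (fun k => Y (T + t k * l)) p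
    rw [← hV] at h3
    rw [abs_mul]
    calc |wt τ (fun k => Y (T + t k * l)) p| * |Z p c| ≤ V * B := by
          gcongr
          exact h1.trans h2
      _ ≤ s / (K + 1) * q := ha
      _ = s * q / (K + 1) := by ring
  · show EM p (fun c => wt τ (fun k => Y (T + t k * l)) p * Z p c) = 0
    rw [EM_mul', M.sys.mean p (Finset.mem_filter.1 hp).2, mul_zero]
  · show |VP (fun p c => wt τ (fun k => Y (T + t k * l)) p * Z p c) ((Ico (Y T + 1) (X + 1)).filter Nat.Prime) - (s * q) ^ 2| ≤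
      (s * q) ^ 2 / (K + 1)
    rw [wt_var]
    have e1 : (s * q) ^ 2 = ∑ k, ∑ j, τ k * τ j * (min (t k) (t j) * l) := by
      rw [mul_pow, hss, hqq, hvd]
      unfold vlim
      rw [Finset.sum_mul]
      refine Finset.sum_congr rfl fun k _ => ?_
      rw [Finset.sum_mul]
      refine Finset.sum_congr rfl fun j _ => ?_
      ring
    have h1 : |∑ k, ∑ j, τ k * τ j * ∑ p ∈ (Ico (Y T + 1) (min X (min (Y (T + t k * l)) (Y (T + t j * l))) + 1)).filter Nat.Prime, vv Z p -
        ∑ k, ∑ j, τ k * τ j * (min (t k) (t j) * l)| ≤ V ^ 2 * (2 * K1 + (2 * C2 + CK)) := by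
      rw [← Finset.sum_sub_distrib]
      refine (Finset.abs_sum_le_sum_abs _ _).trans ?_
      rw [sq, hV, Finset.sum_mul, Finset.sum_mul]
      refine Finset.sum_le_sum fun k _ => ?_
      rw [← Finset.sum_sub_distrib]
      refine (Finset.abs_sum_le_sum_abs _ _).trans ?_
      rw [Finset.mul_sum, Finset.sum_mul]
      refine Finset.sum_le_sum fun j _ => ?_
      have hmm : min (Y (T + t k * l)) (Y (T + t j * l)) = Y (T + min (t k) (t j) * l) := by
        rw [Y_min]
        congr 1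
        rcases le_total (t k) (t j) with h | h
        · rw [min_eq_left h, min_eq_left (by gcongr)]
        · rw [min_eq_right h, min_eq_right (by gcongr)]
      rw [← mul_sub, abs_mul, abs_mul, hmm]
      refine mul_le_mul_of_nonneg_left ?_ (by positivity)
      exact M.var_min hC2 hCK hT hL.le hLL hY2 hY3 (le_min (ht0 k).le (ht0 j).le) ((min_le_left _ _).trans (ht1 k))
    rw [← e1] at h1
    refine h1.trans (hc.trans (le_of_eq ?_))
    rw [mul_pow, hss, hqq]
    ring
  · show X ^ K ≤ H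
    have h0 : 1 ≤ Y (T + l) := by
      have := Y_two (by linarith : 0 ≤ T + l)
      omega
    have h1 := Yt_pow K (Y (T + l)) h0
    rw [← hX] at h1
    have h2 : Y (T + l) ≤ Y (T + l) ^ 11 := Nat.le_self_pow (by norm_num) _
    omega
  · show EB H (far (fun c => (∑ k, τ k * path Q κ T l c (t k)) / s)
      (fun c => SP (fun p c => wt τ (fun k => Y (T + t k * l)) p * Z p c) ((Ico (Y T + 1) (X + 1)).filter Nat.Prime) c / (s * q))
      (1 / (K + 1))) ≤ 1 / (K + 1)
    rw [← hη]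
    obtain ⟨lam, hlam⟩ : ∃ lam : ℝ, lam = η * s / (2 * n) * q := ⟨_, rfl⟩
    have hlam0 : 0 < lam := by rw [hlam]; positivity
    obtain ⟨m, hm⟩ : ∃ m : Fin n → ℕ, m = fun k => min X (Y (T + t k * l)) := ⟨_, rfl⟩
    have hmk : ∀ k, min X (Y (T + t k * l)) = m k := fun k => by rw [hm]
    have hm1 : ∀ k, Y T + 1 ≤ m k + 1 := fun k => by
      rw [← hmk]
      have := le_min hY3 (hTY k)
      omega
    have hm2 : ∀ k, m k + 1 ≤ Y (T + t k * l) + 1 := fun k => by
      rw [← hmk]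
      have := min_le_right X (Y (T + t k * l))
      omega
    have hfar : ∀ c, far (fun c => (∑ k, τ k * path Q κ T l c (t k)) / s)
        (fun c => SP (fun p c => wt τ (fun k => Y (T + t k * l)) p * Z p c) ((Ico (Y T + 1) (X + 1)).filter Nat.Prime) c / (s * q)) η c ≤
        ∑ k, (1 / lam ^ 4) * (V ^ 4 * SS Z (m k + 1) (Y (T + t k * l) + 1) c ^ 4) := by
      intro c
      by_cases hall : ∀ k, |τ k * SS Z (m k + 1) (Y (T + t k * l) + 1) c| ≤ lam
      · have h1 : |(∑ k, τ k * path Q κ T l c (t k)) / s -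
            SP (fun p c => wt τ (fun k => Y (T + t k * l)) p * Z p c) ((Ico (Y T + 1) (X + 1)).filter Nat.Prime) c / (s * q)| ≤ η := by
          rw [wt_sum]
          simp only [hmk]
          have e1 : (∑ k, τ k * path Q κ T l c (t k)) / s - -∑ k, τ k * SS Z (Y T + 1) (m k + 1) c / (s * q) =
              (∑ k, (τ k * (q * path Q κ T l c (t k) + SS Z (Y T + 1) (Y (T + t k * l) + 1) c) -
                τ k * SS Z (m k + 1) (Y (T + t k * l) + 1) c)) / (s * q) := by
            rw [sub_neg_eq_add, Finset.sum_div, ← Finset.sum_add_distrib, Finset.sum_div]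
            refine Finset.sum_congr rfl fun k _ => ?_
            have h2 := SS_add (Z := Z) (hm1 k) (hm2 k) c
            rw [h2]
            field_simp
            ring
          have e2 : (-∑ k, τ k * SS Z (Y T + 1) (m k + 1) c) / (s * q) =
              -∑ k, τ k * SS Z (Y T + 1) (m k + 1) c / (s * q) := by
            rw [neg_div, Finset.sum_div]
          rw [e2, e1, abs_div, abs_of_pos (by positivity : 0 < s * q), div_le_iff₀ (by positivity)]
          refine (Finset.abs_sum_le_sum_abs _ _).trans ?_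
          have h3 : ∀ k ∈ (Finset.univ : Finset (Fin n)),
              |τ k * (q * path Q κ T l c (t k) + SS Z (Y T + 1) (Y (T + t k * l) + 1) c) -
                τ k * SS Z (m k + 1) (Y (T + t k * l) + 1) c| ≤ |τ k| * Kp + lam := by
            intro k _
            refine (abs_sub _ _).trans (add_le_add ?_ (hall k))
            rw [abs_mul]
            refine mul_le_mul_of_nonneg_left ?_ (abs_nonneg _)
            have := hpath T l hT hL (t k) (ht0 k).le c
            rwa [← hq] at this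
          refine (Finset.sum_le_sum h3).trans ?_
          rw [Finset.sum_add_distrib, ← Finset.sum_mul, ← hV, Finset.sum_const, Finset.card_univ, Fintype.card_fin,
            nsmul_eq_mul, hlam]
          have e3 : (n : ℝ) * (η * s / (2 * n) * q) = η / 2 * s * q := by field_simp
          rw [e3]
          linarith
        have h4 : far (fun c => (∑ k, τ k * path Q κ T l c (t k)) / s)
            (fun c => SP (fun p c => wt τ (fun k => Y (T + t k * l)) p * Z p c) ((Ico (Y T + 1) (X + 1)).filter Nat.Prime) c / (s * q)) η c = 0 := by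
          unfold far
          rw [if_pos h1]
        rw [h4]
        positivity
      · push Not at hall
        obtain ⟨k, hk⟩ := hall
        have h1 : (1 : ℝ) ≤ (1 / lam ^ 4) * (V ^ 4 * SS Z (m k + 1) (Y (T + t k * l) + 1) c ^ 4) := by
          rw [one_div_mul_eq_div, le_div_iff₀ (by positivity), one_mul]
          have h2 : lam ^ 4 ≤ |τ k * SS Z (m k + 1) (Y (T + t k * l) + 1) c| ^ 4 :=
            pow_le_pow_left₀ hlam0.le hk.le 4
          refine h2.trans ?_
          rw [abs_mul, mul_pow]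
          have h3 : |τ k| ^ 4 ≤ V ^ 4 := pow_le_pow_left₀ (abs_nonneg _) (hτV k) 4
          have h4 : |SS Z (m k + 1) (Y (T + t k * l) + 1) c| ^ 4 =
              SS Z (m k + 1) (Y (T + t k * l) + 1) c ^ 4 := by
            rw [pow_abs, abs_of_nonneg (by positivity)]
          rw [h4]
          exact mul_le_mul_of_nonneg_right h3 (by positivity)
        have h5 : (1 / lam ^ 4) * (V ^ 4 * SS Z (m k + 1) (Y (T + t k * l) + 1) c ^ 4) ≤
            ∑ k, (1 / lam ^ 4) * (V ^ 4 * SS Z (m k + 1) (Y (T + t k * l) + 1) c ^ 4) :=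
          Finset.single_le_sum (f := fun k => (1 / lam ^ 4) * (V ^ 4 * SS Z (m k + 1) (Y (T + t k * l) + 1) c ^ 4))
            (fun i _ => by positivity) (Finset.mem_univ k)
        refine le_trans ?_ (h1.trans h5)
        unfold far
        split_ifs <;> norm_num
    refine (EB_mono' H _ _ hfar).trans ?_
    rw [EB_sum']
    have hfour : ∀ k ∈ (Finset.univ : Finset (Fin n)),
        EB H (fun c => (1 / lam ^ 4) * (V ^ 4 * SS Z (m k + 1) (Y (T + t k * l) + 1) c ^ 4)) ≤
        (1 / lam ^ 4) * (V ^ 4 * (91 * B ^ 4 * (2 * C2 + CK) ^ 2)) := by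
      intro k _
      rw [EB_mul', EB_mul']
      have h1 := M.sys.four (a := m k + 1) (b := Y (T + t k * l) + 1) (x := Y (T + l) + 1) (H := H)
        (by have := Y_mono (by have := htl1 k; linarith : T + t k * l ≤ T + l); omega) (height_ok hx512 hH)
      have h2 : LL (m k + 1) (Y (T + t k * l) + 1) ≤ 2 * C2 + CK := by
        have h3 := LL_split (hm2 k)
        have h4 := (abs_le.1 (hLL (T + t k * l) (by have := htl0 k; linarith)))
        have h6 : T + t k * l - C2 - CK ≤ LL 0 (m k + 1) := by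
          rw [← hmk]
          rcases le_total (Y (T + t k * l)) X with h | h
          · rw [min_eq_right h]
            linarith [h4.1]
          · rw [min_eq_left h]
            have := htl1 k
            linarith
        linarith [h4.2]
      have h0 := LL_nonneg (m k + 1) (Y (T + t k * l) + 1)
      gcongr
      exact h1.trans (by gcongr)
    refine (Finset.sum_le_sum hfour).trans ?_
    rw [Finset.sum_const, Finset.card_univ, Fintype.card_fin, nsmul_eq_mul]
    have e4 : lam ^ 4 = (η * s / (2 * n)) ^ 4 * l ^ 2 := by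
      rw [hlam, mul_pow, ← hqq]
      ring
    rw [e4]
    have h7 : (0 : ℝ) < (η * s / (2 * n)) ^ 4 := by positivity
    have e5 : (n : ℝ) * (1 / ((η * s / (2 * n)) ^ 4 * l ^ 2) * (V ^ 4 * (91 * B ^ 4 * (2 * C2 + CK) ^ 2))) =
        A4 / l ^ 2 := by
      rw [hA4]
      field_simp
    rw [e5, div_le_iff₀ (by positivity)]
    exact hd

/-- **The limit of the characteristic functions.** -/
theorem Model.char_lim (M : Model Z B κ K0 K1 Q) {n : ℕ} (τ t : Fin n → ℝ) (ht0 : ∀ k, 0 < t k)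
    (ht1 : ∀ k, t k ≤ 1) (hv : 0 < vlim τ t) {ε : ℝ} (hε : 0 < ε) :
    ∀ᶠ l : ℝ in atTop, ∀ T : ℝ, 0 ≤ T → ∀ H : ℕ, Y (T + l) ^ 11 ≤ H →
      ‖EBc H (fun c => Complex.exp (((∑ k, τ k * path Q κ T l c (t k) : ℝ) : ℂ) * Complex.I)) -
        ((Real.exp (-(vlim τ t / 2)) : ℝ) : ℂ)‖ ≤ ε := by
  obtain ⟨K, hK⟩ := unif_char2 (ι := ι) (√(vlim τ t)) hε
  filter_upwards [M.ok τ t ht0 ht1 hv K] with l hl T hT H hH
  have h := hK _ (hl T hT H hH)
  have hs0 : 0 < √(vlim τ t) := Real.sqrt_pos.2 hv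
  have e : ∀ c : ι → ℤ, √(vlim τ t) * ((∑ k, τ k * path Q κ T l c (t k)) / √(vlim τ t)) =
      ∑ k, τ k * path Q κ T l c (t k) := fun c => by field_simp
  simp only [e, Real.sq_sqrt hv.le] at h
  exact h

end Pool.Agent.V5helper57.Win
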