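import Pool.Agent.V5helper57.Win.Inst
import Pool.Agent.Helper41.BS.ExistBM

/-!
# No power law
-/

set_option autoImplicit false

namespace Pool.Agent.V5helper57.Win

open Finset Filter Topology MeasureTheory ProbabilityTheory Pool.Agent.Y722.HS Pool.Agent.X280.BP
open scoped NNReal ENNReal

/-- The bound for the density. -/
theorem gauss_small {v : ℝ≥0} (hv : 0 < v) {s : ℝ} (hs : 0 ≤ s) :
    (gaussianReal 0 v).real (Set.Icc (-s) s) ≤ 4 / 5 * s / √(v : ℝ) := by
  have hv' : (0 : ℝ) < v := by exact_mod_cast hv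
  have hvs : 0 < √(v : ℝ) := Real.sqrt_pos.2 hv'
  have h1 : (gaussianReal 0 v) (Set.Icc (-s) s) ≤ ENNReal.ofReal ((√(2 * Real.pi * v))⁻¹ * (2 * s)) := by
    rw [gaussianReal_apply 0 hv.ne']
    calc ∫⁻ x in Set.Icc (-s) s, gaussianPDF 0 v x ≤ ∫⁻ _ in Set.Icc (-s) s, ENNReal.ofReal ((√(2 * Real.pi * v))⁻¹) := by
          apply lintegral_mono
          intro x
          unfold gaussianPDF
          apply ENNReal.ofReal_le_ofReal
          rw [gaussianPDFReal]
          apply mul_le_of_le_one_right (by positivity)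
          apply Real.exp_le_one_iff.2
          apply div_nonpos_of_nonpos_of_nonneg
          · have := sq_nonneg (x - 0)
            linarith
          · positivity
      _ = ENNReal.ofReal ((√(2 * Real.pi * v))⁻¹ * (2 * s)) := by
          rw [lintegral_const, Measure.restrict_apply MeasurableSet.univ, Set.univ_inter, Real.volume_Icc,
            ← ENNReal.ofReal_mul (by positivity)]
          congr 1
          ring
  have h2 : (gaussianReal 0 v).real (Set.Icc (-s) s) ≤ (√(2 * Real.pi * v))⁻¹ * (2 * s) := by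
    rw [measureReal_def]
    exact ENNReal.toReal_le_of_le_ofReal (by positivity) h1
  refine h2.trans ?_
  have h3 : (5 / 2 : ℝ) ≤ √(2 * Real.pi) := by
    apply Real.le_sqrt_of_sq_le
    have := Real.pi_gt_d2
    norm_num
    linarith
  have h4 : 0 < √(2 * Real.pi) := by linarith
  rw [Real.sqrt_mul (by positivity)]
  have e : (√(2 * Real.pi) * √(v : ℝ))⁻¹ * (2 * s) = (2 * s / √(2 * Real.pi)) / √(v : ℝ) := by
    field_simp
  rw [e]
  apply div_le_div_of_nonneg_right _ hvs.le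
  rw [div_le_iff₀ h4]
  nlinarith

/-- The functional which detects power laws. -/
noncomputable def det (a η : ℝ) (f : ℝ → ℝ) : ℝ := max 0 (min 1 (5 - |f 1 - 2 * f ((1 + a) / 2) + f a| / η))

theorem det_le_one (a η : ℝ) (f : ℝ → ℝ) : det a η f ≤ 1 := max_le (by norm_num) (min_le_left _ _)

theorem det_nonneg (a η : ℝ) (f : ℝ → ℝ) : 0 ≤ det a η f := le_max_left _ _

theorem det_fun {a η : ℝ} (ha0 : 0 ≤ a) (ha1 : a < 1) (hη : 0 < η) : Fun (det a η) 1 (4 / η) where
  Kf0 := by positivity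
  bd f := by rw [abs_of_nonneg (det_nonneg _ _ _)]; exact det_le_one _ _ _
  lip f g δ hδ h := by
    have h1 := h 1 (by norm_num) le_rfl
    have h2 := h ((1 + a) / 2) (by linarith) (by linarith)
    have h3 := h a ha0 ha1.le
    obtain ⟨u, hu⟩ : ∃ u, u = f 1 - 2 * f ((1 + a) / 2) + f a := ⟨_, rfl⟩
    obtain ⟨v, hv⟩ : ∃ v, v = g 1 - 2 * g ((1 + a) / 2) + g a := ⟨_, rfl⟩
    have h4 : |u - v| ≤ 4 * δ := by
      rw [hu, hv]
      rw [abs_le] at h1 h2 h3 ⊢
      constructor <;> linarith [h1.1, h1.2, h2.1, h2.2, h3.1, h3.2]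
    have h5 : |(5 - |u| / η) - (5 - |v| / η)| ≤ 4 / η * δ := by
      have e : (5 - |u| / η) - (5 - |v| / η) = (|v| - |u|) / η := by ring
      rw [e, abs_div, abs_of_pos hη, div_le_iff₀ hη]
      have h6 := abs_abs_sub_abs_le_abs_sub v u
      rw [abs_sub_comm v u] at h6
      calc |(|v| - |u|)| ≤ |u - v| := h6
        _ ≤ 4 * δ := h4
        _ = 4 / η * δ * η := by field_simp
    unfold det
    rw [← hu, ← hv]
    refine le_trans ?_ h5
    refine (abs_max_sub_max_le_max _ _ _ _).trans ?_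
    rw [sub_self, abs_zero]
    apply max_le (abs_nonneg _)
    refine (abs_min_sub_min_le_max _ _ _ _).trans ?_
    rw [sub_self, abs_zero]
    exact max_le (abs_nonneg _) le_rfl

/-- The second difference of the Brownian motion. -/
theorem brown_det {Ω : Type*} [MeasurableSpace Ω] {P : Measure Ω} {X : ℝ≥0 → Ω → ℝ} (hX : IsBrownianReal X P)
    {a η : ℝ} (ha0 : 0 ≤ a) (ha1 : a < 1) (hη : 0 < η) :
    ∫ ω, det a η (fun t : ℝ => X t.toNNReal ω) ∂P ≤ 4 * η / √(1 - a) := by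
  have hPr : IsProbabilityMeasure P := hX.isGaussianProcess.isProbabilityMeasure
  obtain ⟨τ, hτ⟩ : ∃ τ : Fin 3 → ℝ, τ = ![1, -2, 1] := ⟨_, rfl⟩
  obtain ⟨t, ht⟩ : ∃ t : Fin 3 → ℝ≥0, t = ![(1 : ℝ).toNNReal, ((1 + a) / 2).toNNReal, a.toNNReal] := ⟨_, rfl⟩
  have hD : ∀ ω, X (1 : ℝ).toNNReal ω - 2 * X ((1 + a) / 2).toNNReal ω + X a.toNNReal ω = ∑ k, τ k * X (t k) ω := by
    intro ω
    rw [hτ, ht, Fin.sum_univ_three]
    simp
    ring
  have hv : vlim τ (fun k => ((t k : ℝ≥0) : ℝ)) = 1 - a := by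
    unfold vlim
    simp only [Fin.sum_univ_three]
    rw [hτ, ht]
    simp only [Matrix.cons_val_zero, Matrix.cons_val_one, Matrix.cons_val, Real.coe_toNNReal a ha0,
      Real.coe_toNNReal ((1 + a) / 2) (by linarith : (0 : ℝ) ≤ (1 + a) / 2), Real.coe_toNNReal 1 zero_le_one]
    rw [min_self, min_self, min_self, min_eq_right (by linarith : (1 + a) / 2 ≤ 1), min_eq_left (by linarith : (1 + a) / 2 ≤ 1),
      min_eq_right ha1.le, min_eq_left ha1.le, min_eq_right (by linarith : a ≤ (1 + a) / 2),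
      min_eq_left (by linarith : a ≤ (1 + a) / 2)]
    ring
  have hlaw := comb_law hX.toIsPreBrownianReal τ t
  rw [hv] at hlaw
  have hv0 : 0 < (1 - a).toNNReal := by rw [Real.toNNReal_pos]; linarith
  have hmeas : AEMeasurable (fun ω => ∑ k, τ k * X (t k) ω) P :=
    Finset.aemeasurable_fun_sum _ fun k _ => (hX.aemeasurable (t k)).const_mul _
  obtain ⟨ψ, hψ⟩ : ∃ ψ : ℝ → ℝ, ψ = fun s => max 0 (min 1 (5 - |s| / η)) := ⟨_, rfl⟩
  have hψc : Continuous ψ := by rw [hψ]; fun_prop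
  have h1 : ∫ ω, det a η (fun t : ℝ => X t.toNNReal ω) ∂P = ∫ s, ψ s ∂(gaussianReal 0 (1 - a).toNNReal) := by
    rw [← hlaw, integral_map hmeas hψc.aestronglyMeasurable]
    refine integral_congr_ae (Filter.Eventually.of_forall fun ω => ?_)
    simp only [hψ]
    unfold det
    rw [hD ω]
  rw [h1]
  have hψ1 : ∀ s, ψ s ≤ (Set.Icc (-(5 * η)) (5 * η)).indicator (fun _ => (1 : ℝ)) s := by
    intro s
    rw [hψ]
    by_cases hs : s ∈ Set.Icc (-(5 * η)) (5 * η)
    · rw [Set.indicator_of_mem hs]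
      exact max_le (by norm_num) (min_le_left _ _)
    · rw [Set.indicator_of_notMem hs]
      apply max_le le_rfl
      refine (min_le_right _ _).trans ?_
      have h2 : 5 * η ≤ |s| := by
        rw [Set.mem_Icc, ← abs_le] at hs
        push Not at hs
        exact hs.le
      rw [sub_nonpos, le_div_iff₀ hη]
      exact h2
  have h2 : ∫ s, ψ s ∂(gaussianReal 0 (1 - a).toNNReal) ≤
      ∫ s, (Set.Icc (-(5 * η)) (5 * η)).indicator (fun _ => (1 : ℝ)) s ∂(gaussianReal 0 (1 - a).toNNReal) := by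
    apply integral_mono
    · apply Integrable.mono' (integrable_const (1 : ℝ)) hψc.aestronglyMeasurable
      refine Filter.Eventually.of_forall fun s => ?_
      rw [hψ, Real.norm_eq_abs, abs_of_nonneg (le_max_left _ _)]
      exact max_le (by norm_num) (min_le_left _ _)
    · exact (integrable_const _).indicator measurableSet_Icc
    · exact hψ1
  refine h2.trans ?_
  rw [integral_indicator measurableSet_Icc, setIntegral_const, smul_eq_mul, mul_one]
  have h3 := gauss_small hv0 (s := 5 * η) (by positivity)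
  rw [Real.coe_toNNReal _ (by linarith : (0 : ℝ) ≤ 1 - a)] at h3
  refine h3.trans (le_of_eq ?_)
  ring

variable {ι : Type} [Fintype ι] [DecidableEq ι] {r C : ℝ}

/-- The logarithm of the product follows a power law on the window `T ≤ log log y ≤ T + l` up to `K`. -/
def Follows (W : WeierstrassCurve ℤ) (T l K : ℝ) : Prop :=
  ∃ ρ A : ℝ, ∀ u : ℝ, T ≤ u → u ≤ T + l → |Real.log (bsd W (Y u)) - (ρ * u + A)| ≤ K

theorem follows_det {W : WeierstrassCurve ℤ} {T l η κ : ℝ} (hη : 0 < η) (hl : 0 < l)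
    (h : Follows W T l (η * √l)) : det 0 η (cpath W κ T l) = 1 := by
  obtain ⟨ρ, A, h⟩ := h
  obtain ⟨q, hq⟩ : ∃ q : ℝ, q = √l := ⟨_, rfl⟩
  have hq0 : 0 < q := by rw [hq]; exact Real.sqrt_pos.2 hl
  rw [← hq] at h
  have h1 : ∀ t, 0 ≤ t → t ≤ 1 → |q * cpath W κ T l t - ((ρ - κ) * (t * l) + (A - Real.log (bsd W (Y T)) + ρ * T))| ≤ η * q := by
    intro t ht0 ht1
    have h2 := h (T + t * l) (by have := mul_nonneg ht0 hl.le; linarith)
      (by have := mul_le_of_le_one_left hl.le ht1; linarith)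
    have e : q * cpath W κ T l t - ((ρ - κ) * (t * l) + (A - Real.log (bsd W (Y T)) + ρ * T)) =
        Real.log (bsd W (Y (T + t * l))) - (ρ * (T + t * l) + A) := by
      unfold cpath
      rw [← hq, mul_div_cancel₀ _ hq0.ne']
      ring
    rw [e]
    exact h2
  have k1 := h1 1 zero_le_one le_rfl
  have k2 := h1 ((1 + 0) / 2) (by norm_num) (by norm_num)
  have k3 := h1 0 le_rfl zero_le_one
  have h5 : q * |cpath W κ T l 1 - 2 * cpath W κ T l ((1 + 0) / 2) + cpath W κ T l 0| ≤ q * (4 * η) := by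
    rw [← abs_of_pos hq0, ← abs_mul, abs_of_pos hq0]
    rw [abs_le] at k1 k2 k3 ⊢
    have e : (ρ - κ) * ((1 + 0) / 2 * l) = ((ρ - κ) * (1 * l) + (ρ - κ) * (0 * l)) / 2 := by ring
    rw [e] at k2
    constructor <;> linarith [k1.1, k1.2, k2.1, k2.2, k3.1, k3.2]
  have h6 := le_of_mul_le_mul_left h5 hq0
  unfold det
  have h7 : (1 : ℝ) ≤ 5 - |cpath W κ T l 1 - 2 * cpath W κ T l ((1 + 0) / 2) + cpath W κ T l 0| / η := by
    have h8 : |cpath W κ T l 1 - 2 * cpath W κ T l ((1 + 0) / 2) + cpath W κ T l 0| / η ≤ 4 := by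
      rw [div_le_iff₀ hη]; exact h6
    linarith
  rw [min_eq_left h7]
  exact max_eq_right (by norm_num)

open Classical in
/-- **No power law.** -/
theorem no_power {W : (ι → ℤ) → WeierstrassCurve ℤ} {V : ∀ p : ℕ, (ι → ZMod p) → WeierstrassCurve (ZMod p)}
    (h : Red W V) (D : Dat (trc V) (fun p c => (V p c).Δ ≠ 0) r C) {η ε : ℝ}
    (hη : 0 < η) (hε : 0 < ε) :
    ∀ᶠ l : ℝ in atTop, ∀ T : ℝ, 0 ≤ T → ∀ H : ℕ, Y (T + l) ^ 11 ≤ H →
      EB H (fun c => if Follows (W c) T l (η * √l) then 1 else 0) ≤ 4 * η + ε := by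
  obtain ⟨Ω, mΩ, P, _, _, X, hX⟩ := Pool.Agent.Helper41.BS.exists_bm2
  have h1 := donsker_of h D (hX.bm 0) (det_fun (a := 0) le_rfl zero_lt_one hη) hε
  filter_upwards [h1, eventually_gt_atTop 0] with l hl hl0 T hT H hH
  have h2 := (abs_le.1 (hl T hT H hH)).2
  have h3 := brown_det (hX.bm 0) (a := 0) le_rfl zero_lt_one hη
  rw [sub_zero, Real.sqrt_one, div_one] at h3
  refine le_trans (EB_mono' H _ (fun c => det 0 η (cpath (W c) (r + 1 / 2) T l)) fun c => ?_) (by linarith)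
  split_ifs with hc
  · rw [follows_det hη hl0 hc]
  · exact det_nonneg _ _ _

open Classical in
/-- **No visible law.** -/
theorem no_law {W : (ι → ℤ) → WeierstrassCurve ℤ} {V : ∀ p : ℕ, (ι → ZMod p) → WeierstrassCurve (ZMod p)}
    (h : Red W V) (D : Dat (trc V) (fun p c => (V p c).Δ ≠ 0) r C) {K θ ε : ℝ} (hθ : 0 < θ) (hε : 0 < ε) :
    ∃ δ : ℝ, 0 < δ ∧ ∃ H₀ : ℕ, ∀ H : ℕ, H₀ ≤ H →
      EB H (fun c => if ∃ ρ A : ℝ, ∀ y : ℝ, (H : ℝ) ^ δ ≤ y → y ≤ (H : ℝ) ^ θ →
        |Real.log (bsd (W c) ⌊y⌋₊) - (ρ * Real.log (Real.log y) + A)| ≤ K then 1 else 0) ≤ ε := by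
  have hη : 0 < ε / 8 := by positivity
  have h1 := no_power h D hη (half_pos hε)
  obtain ⟨l, hl1, hl0, hl2⟩ := (h1.and ((eventually_gt_atTop 0).and
    ((Real.tendsto_sqrt_atTop.const_mul_atTop hη).eventually_ge_atTop K))).exists
  obtain ⟨θ', hθ'⟩ : ∃ θ' : ℝ, θ' = min θ (1 / 11) := ⟨_, rfl⟩
  have hθ0 : 0 < θ' := by rw [hθ']; exact lt_min hθ (by norm_num)
  have hθ1 : θ' ≤ θ := by rw [hθ']; exact min_le_left _ _
  have hθ2 : θ' ≤ 1 / 11 := by rw [hθ']; exact min_le_right _ _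
  obtain ⟨δ, hδ⟩ : ∃ δ : ℝ, δ = θ' * Real.exp (-l) := ⟨_, rfl⟩
  have hδ0 : 0 < δ := by rw [hδ]; positivity
  have hlim : Tendsto (fun H : ℕ => δ * Real.log H) atTop atTop :=
    (Real.tendsto_log_atTop.comp tendsto_natCast_atTop_atTop).const_mul_atTop hδ0
  have hev := (hlim.eventually_ge_atTop 1).and (eventually_ge_atTop 2)
  rw [Filter.eventually_atTop] at hev
  obtain ⟨H₀, hH₀⟩ := hev
  refine ⟨δ, hδ0, H₀, fun H hH => ?_⟩
  obtain ⟨hH1, hH2⟩ := hH₀ H hH
  have hHr : (1 : ℝ) < H := by exact_mod_cast hH2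
  have hHr0 : (0 : ℝ) < H := by linarith
  have hlH : 0 < Real.log H := Real.log_pos hHr
  have hT0 : 0 ≤ Real.log (δ * Real.log H) := Real.log_nonneg hH1
  have hTl : Real.exp (Real.log (δ * Real.log H) + l) = θ' * Real.log H := by
    rw [Real.exp_add, Real.exp_log (by positivity), hδ]
    have : Real.exp (-l) * Real.exp l = 1 := by rw [← Real.exp_add]; simp
    calc θ' * Real.exp (-l) * Real.log H * Real.exp l = θ' * Real.log H * (Real.exp (-l) * Real.exp l) := by ring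
      _ = θ' * Real.log H := by rw [this, mul_one]
  have hpow : ∀ s : ℝ, Real.exp (s * Real.log H) = (H : ℝ) ^ s := by
    intro s
    rw [Real.rpow_def_of_pos hHr0, mul_comm]
  have hY : Y (Real.log (δ * Real.log H) + l) ^ 11 ≤ H := by
    have h2 : ((Y (Real.log (δ * Real.log H) + l) : ℕ) : ℝ) ≤ (H : ℝ) ^ θ' := by
      unfold Y
      refine (Nat.floor_le (Real.exp_pos _).le).trans ?_
      rw [hTl, hpow]
    have h3 : ((Y (Real.log (δ * Real.log H) + l) : ℕ) : ℝ) ^ 11 ≤ ((H : ℝ) ^ θ') ^ 11 :=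
      pow_le_pow_left₀ (by positivity) h2 11
    have h4 : ((H : ℝ) ^ θ') ^ 11 ≤ H := by
      rw [← Real.rpow_natCast, ← Real.rpow_mul hHr0.le]
      calc (H : ℝ) ^ (θ' * (11 : ℕ)) ≤ (H : ℝ) ^ (1 : ℝ) := by
            apply Real.rpow_le_rpow_of_exponent_le hHr.le
            push_cast
            linarith
        _ = H := Real.rpow_one _
    exact_mod_cast h3.trans h4
  have h5 := hl1 (Real.log (δ * Real.log H)) hT0 H hY
  refine le_trans (EB_mono' H _ _ fun c => ?_) (h5.trans (by linarith))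
  by_cases hc : ∃ ρ A : ℝ, ∀ y : ℝ, (H : ℝ) ^ δ ≤ y → y ≤ (H : ℝ) ^ θ →
        |Real.log (bsd (W c) ⌊y⌋₊) - (ρ * Real.log (Real.log y) + A)| ≤ K
  · rw [if_pos hc, if_pos]
    obtain ⟨ρ, A, hc⟩ := hc
    refine ⟨ρ, A, fun u hu1 hu2 => ?_⟩
    have h6 := hc (Real.exp (Real.exp u)) (by
      rw [← hpow]
      apply Real.exp_le_exp.2
      calc δ * Real.log H = Real.exp (Real.log (δ * Real.log H)) := by rw [Real.exp_log (by positivity)]
        _ ≤ Real.exp u := Real.exp_le_exp.2 hu1) (by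
      have h7 : (H : ℝ) ^ θ' ≤ (H : ℝ) ^ θ := Real.rpow_le_rpow_of_exponent_le hHr.le hθ1
      refine le_trans ?_ h7
      rw [← hpow, ← hTl]
      exact Real.exp_le_exp.2 (Real.exp_le_exp.2 hu2))
    rw [Real.log_exp, Real.log_exp] at h6
    exact h6.trans hl2
  · rw [if_neg hc]
    split_ifs <;> norm_num

end Pool.Agent.V5helper57.Win
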