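import Pool.Agent.V5helper57.Win.Weak

/-!
# Tightness
-/

set_option autoImplicit false

namespace Pool.Agent.V5helper57.Win

open Finset Filter Topology MeasureTheory ProbabilityTheory Pool.Agent.Y722.HS Pool.Agent.X280.BP
open scoped NNReal ENNReal

variable {ι : Type} [Fintype ι] [DecidableEq ι]
variable {Z : ∀ p : ℕ, (ι → ZMod p) → ℝ} {B κ K0 K1 : ℝ} {Q : ℕ → (ι → ℤ) → ℝ}

/-- The maximal inequality on a block. -/
theorem maxAB (h : Sys Z B) {a b x H : ℕ} (hab : a ≤ b) (hb : b ≤ x)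
    (hx : 2 ^ Fintype.card ι * x ^ 10 ≤ 2 * H + 1) :
    ∃ M : (ι → ℤ) → ℝ, EB H M ≤ 2916 * (91 * B ^ 4) * LL a b ^ 2 ∧
      ∀ c t, a ≤ t → t ≤ b → SS Z a t c ^ 4 ≤ M c := by
  classical
  have e1 : ∀ a b c, ∑ i ∈ Ico a b, (if i.Prime then Z i (red i c) else 0) = SS Z a b c := by
    intro a b c
    unfold SS
    rw [Finset.sum_filter]
  have e2 : ∀ a b, ∑ i ∈ Ico a b, (if i.Prime then (1 : ℝ) / i else 0) = LL a b := by
    intro a b
    unfold LL
    rw [Finset.sum_filter]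
  have hB0 : 0 < B := lt_of_lt_of_le one_pos h.one_le
  obtain ⟨M, h1, h2⟩ := chain H (fun i c => if i.Prime then Z i (red i c) else 0)
    (fun i => if i.Prime then (1 : ℝ) / i else 0) (fun i => by positivity) (91 * B ^ 4)
    (by positivity) b (fun a b' _ hb' => by
      simp only [e1, e2]
      exact h.four (hb'.trans hb) hx) (b - a) a b hab le_rfl le_rfl
  rw [e2] at h1
  refine ⟨M, h1, fun c t hat ht => ?_⟩
  have := h2 c t hat ht
  rwa [e1] at this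

/-- The index of the grid point to the right. -/
noncomputable def ix (n : ℕ) (t : ℝ) : Fin (n + 1) :=
  ⟨min (⌈((n + 1 : ℕ) : ℝ) * t⌉₊ - 1) n, by omega⟩

theorem ix_spec (n : ℕ) {t : ℝ} (h0 : 0 ≤ t) (h1 : t ≤ 1) :
    ((ix n t : ℕ) : ℝ) / ((n + 1 : ℕ) : ℝ) ≤ t ∧ t ≤ (((ix n t : ℕ) : ℝ) + 1) / ((n + 1 : ℕ) : ℝ) := by
  have hN : (0 : ℝ) < ((n + 1 : ℕ) : ℝ) := by positivity
  obtain ⟨m, hm⟩ : ∃ m : ℕ, m = ⌈((n + 1 : ℕ) : ℝ) * t⌉₊ := ⟨_, rfl⟩
  have hmn : m ≤ n + 1 := by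
    rw [hm]
    apply Nat.ceil_le.2
    exact mul_le_of_le_one_right hN.le h1
  have h2 : ((n + 1 : ℕ) : ℝ) * t ≤ m := by rw [hm]; exact Nat.le_ceil _
  have h3 : (m : ℝ) < ((n + 1 : ℕ) : ℝ) * t + 1 := by rw [hm]; exact Nat.ceil_lt_add_one (by positivity)
  have e : (ix n t : ℕ) = m - 1 := by
    show min (⌈((n + 1 : ℕ) : ℝ) * t⌉₊ - 1) n = m - 1
    rw [← hm]
    omega
  rw [e, div_le_iff₀ hN, le_div_iff₀ hN]
  rcases Nat.eq_zero_or_pos m with hm0 | hm0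
  · rw [hm0] at h2 ⊢
    norm_num at h2 ⊢
    constructor
    · positivity
    · nlinarith
  · have e2 : ((m - 1 : ℕ) : ℝ) = (m : ℝ) - 1 := by
      rw [Nat.cast_sub hm0, Nat.cast_one]
    rw [e2]
    constructor <;> linarith

/-- The step function with given values on the grid. -/
noncomputable def stepf (n : ℕ) (v : Fin (n + 1) → ℝ) (t : ℝ) : ℝ := v (ix n t)

/-- The functionals which are bounded by `Mb` and Lipschitz with the constant `Kf` for the uniform distance on `[0, 1]`. -/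
structure Fun (Φ : (ℝ → ℝ) → ℝ) (Mb Kf : ℝ) : Prop where
  Kf0 : 0 ≤ Kf
  bd : ∀ f, |Φ f| ≤ Mb
  lip : ∀ (f g : ℝ → ℝ) (δ : ℝ), 0 ≤ δ → (∀ t, 0 ≤ t → t ≤ 1 → |f t - g t| ≤ δ) → |Φ f - Φ g| ≤ Kf * δ

variable {Φ : (ℝ → ℝ) → ℝ} {Mb Kf : ℝ}

theorem Fun.Mb0 (h : Fun Φ Mb Kf) : 0 ≤ Mb := (abs_nonneg _).trans (h.bd 0)

theorem Fun.diff (h : Fun Φ Mb Kf) (f g : ℝ → ℝ) : |Φ f - Φ g| ≤ 2 * Mb := by
  have h1 := abs_le.1 (h.bd f)
  have h2 := abs_le.1 (h.bd g)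
  rw [abs_le]
  constructor <;> linarith [h1.1, h1.2, h2.1, h2.2]

theorem Fun.step_cont (h : Fun Φ Mb Kf) (n : ℕ) : Continuous (fun v : Fin (n + 1) → ℝ => Φ (stepf n v)) := by
  rw [Metric.continuous_iff]
  intro v ε hε
  have hK := h.Kf0
  refine ⟨ε / (Kf + 1), by positivity, fun w hw => ?_⟩
  rw [Real.dist_eq]
  have h1 := h.lip (stepf n w) (stepf n v) (dist w v) dist_nonneg (fun t _ _ => by
    have := dist_le_pi_dist w v (ix n t)
    rwa [Real.dist_eq] at this)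
  refine lt_of_le_of_lt h1 ?_
  rw [lt_div_iff₀ (by positivity)] at hw
  have h2 : 0 ≤ dist w v := dist_nonneg
  rcases h2.eq_or_lt with h3 | h3
  · rw [← h3]; linarith
  · nlinarith

theorem EB_sub' (H : ℕ) (f g : (ι → ℤ) → ℝ) : EB H (fun c => f c - g c) = EB H f - EB H g := by
  unfold EB
  rw [Finset.sum_sub_distrib, sub_div]

theorem EB_abs' (H : ℕ) (f : (ι → ℤ) → ℝ) : |EB H f| ≤ EB H (fun c => |f c|) := by
  unfold EB
  rw [abs_div, abs_of_pos (by positivity : (0 : ℝ) < (2 * H + 1 : ℝ) ^ Fintype.card ι)]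
  exact div_le_div_of_nonneg_right (Finset.abs_sum_le_sum_abs _ _) (by positivity)

/-- **Tightness.** -/
theorem Model.tight (M : Model Z B κ K0 K1 Q) (hΦ : Fun Φ Mb Kf) (n : ℕ) {δ : ℝ} (hδ : 0 < δ) :
    ∀ᶠ l : ℝ in atTop, ∀ T : ℝ, 0 ≤ T → ∀ H : ℕ, Y (T + l) ^ 11 ≤ H →
      |EB H (fun c => Φ (path Q κ T l c)) -
        EB H (fun c => Φ (stepf n (fun k => path Q κ T l c (((k : ℕ) + 1 : ℝ) / ((n + 1 : ℕ) : ℝ)))))| ≤
      Kf * δ + 2 * Mb * (2916 * (91 * B ^ 4) * 1024) / (((n + 1 : ℕ) : ℝ) * δ ^ 4) := by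
  classical
  obtain ⟨C2, hC2, hLL⟩ := LL_Y
  obtain ⟨Kp, hKp, hpath⟩ := M.path_near
  have hMb0 := hΦ.Mb0
  have hKf0 := hΦ.Kf0
  obtain ⟨N, hN⟩ : ∃ N : ℝ, N = ((n + 1 : ℕ) : ℝ) := ⟨_, rfl⟩
  have hN0 : 0 < N := by rw [hN]; positivity
  have hz : ∀ A : ℝ, Tendsto (fun l : ℝ => A / √l) atTop (𝓝 0) := fun A =>
    tendsto_const_nhds.div_atTop Real.tendsto_sqrt_atTop
  have hz2 : ∀ A : ℝ, Tendsto (fun l : ℝ => A / l) atTop (𝓝 0) := fun A =>
    tendsto_const_nhds.div_atTop tendsto_id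
  filter_upwards [ev_Y (eventually_ge_atTop (512 * 2 ^ Fintype.card ι)), eventually_gt_atTop 0,
    (hz (2 * Kp)).eventually (ge_mem_nhds (show (0 : ℝ) < δ / 2 by positivity)),
    (hz2 (2 * C2)).eventually (ge_mem_nhds (show (0 : ℝ) < 1 / N by positivity))] with l hl512 hL ha hb T hT H hH
  have hx512 := hl512 T hT
  obtain ⟨q, hq⟩ : ∃ q : ℝ, q = √l := ⟨_, rfl⟩
  have hq0 : 0 < q := by rw [hq]; exact Real.sqrt_pos.2 hL
  have hqq : q ^ 2 = l := by rw [hq]; exact Real.sq_sqrt hL.le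
  rw [← hq, div_le_iff₀ hq0] at ha
  rw [div_le_iff₀ hL] at hb
  obtain ⟨g, hg⟩ : ∃ g : ℕ → ℝ, g = fun k : ℕ => (k : ℝ) / N := ⟨_, rfl⟩
  have hg0 : ∀ k, 0 ≤ g k := fun k => by rw [hg]; positivity
  have hgm : ∀ k, g k ≤ g (k + 1) := fun k => by
    rw [hg]
    have : (k : ℝ) ≤ ((k + 1 : ℕ) : ℝ) := by push_cast; linarith
    dsimp only
    gcongr
  have hg1 : ∀ k : Fin (n + 1), g (k + 1) ≤ 1 := fun k => by
    rw [hg]
    dsimp only
    rw [div_le_one hN0, hN]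
    exact_mod_cast k.2
  obtain ⟨y, hy⟩ : ∃ y : ℝ → ℕ, y = fun t => Y (T + t * l) := ⟨_, rfl⟩
  have hyt : ∀ t, Y (T + t * l) = y t := fun t => by rw [hy]
  have hym : ∀ {s t : ℝ}, s ≤ t → y s ≤ y t := by
    intro s t hst
    rw [hy]
    exact Y_mono (by have := mul_le_mul_of_nonneg_right hst hL.le; linarith)
  have hyT : ∀ t, 0 ≤ t → Y T ≤ y t := by
    intro t ht
    rw [hy]
    exact Y_mono (by have := mul_nonneg ht hL.le; linarith)
  have hy1 : ∀ t, t ≤ 1 → y t ≤ Y (T + l) := by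
    intro t ht
    rw [hy]
    exact Y_mono (by have := mul_le_of_le_one_left hL.le ht; linarith)
  have hblock : ∀ k : Fin (n + 1), ∃ Mk : (ι → ℤ) → ℝ,
      EB H Mk ≤ 2916 * (91 * B ^ 4) * (2 * l / N) ^ 2 ∧
      ∀ c t, y (g k) + 1 ≤ t → t ≤ y (g (k + 1)) + 1 → SS Z (y (g k) + 1) t c ^ 4 ≤ Mk c := by
    intro k
    have hab : y (g k) + 1 ≤ y (g (k + 1)) + 1 := by
      have := hym (hgm k)
      omega
    obtain ⟨Mk, h1, h2⟩ := maxAB (x := Y (T + l) + 1) (H := H) M.sys hab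
      (by have := hy1 _ (hg1 k); omega) (height_ok hx512 hH)
    refine ⟨Mk, h1.trans ?_, h2⟩
    have h3 := LL_split hab
    have h4 := abs_le.1 (hLL (T + g k * l) (by have := mul_nonneg (hg0 k) hL.le; linarith))
    have h5 := abs_le.1 (hLL (T + g (k + 1) * l) (by have := mul_nonneg (hg0 (k + 1)) hL.le; linarith))
    rw [hyt] at h4 h5
    have h6 : g (k + 1) = g k + 1 / N := by
      rw [hg]; dsimp only; push_cast; ring
    have h7 : LL (y (g k) + 1) (y (g (k + 1)) + 1) ≤ 2 * l / N := by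
      have e : g (k + 1) * l = g k * l + 1 / N * l := by rw [h6]; ring
      have e2 : 2 * l / N = 1 / N * l + 1 / N * l := by ring
      rw [e] at h5
      rw [e2]
      linarith [h4.1, h5.2]
    have h8 := LL_nonneg (y (g k) + 1) (y (g (k + 1)) + 1)
    have hB0 : 0 < B := lt_of_lt_of_le one_pos M.sys.one_le
    gcongr
  choose Mk hM1 hM2 using hblock
  have hMk0 : ∀ k c, 0 ≤ Mk k c := fun k c => by
    refine le_trans ?_ (hM2 k c (y (g k) + 1) le_rfl (by have := hym (hgm k); omega))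
    positivity
  obtain ⟨lam, hlam⟩ : ∃ lam : ℝ, lam = δ * q / 4 := ⟨_, rfl⟩
  have hlam0 : 0 < lam := by rw [hlam]; positivity
  obtain ⟨pt, hpt⟩ : ∃ pt : (ι → ℤ) → ℝ → ℝ, pt = fun c t => path Q κ T l c t := ⟨_, rfl⟩
  have hosc : ∀ c, (∀ k, Mk k c ≤ lam ^ 4) → ∀ t, 0 ≤ t → t ≤ 1 →
      |pt c t - stepf n (fun k => pt c (((k : ℕ) + 1 : ℝ) / ((n + 1 : ℕ) : ℝ))) t| ≤ δ := by
    intro c hc t ht0 ht1
    obtain ⟨h1, h2⟩ := ix_spec n ht0 ht1
    obtain ⟨k, hk⟩ : ∃ k, k = ix n t := ⟨_, rfl⟩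
    rw [← hk, ← hN] at h1 h2
    have h1' : g k ≤ t := by rw [hg]; exact h1
    have h2' : t ≤ g (k + 1) := by rw [hg]; push_cast; exact h2
    have e0 : stepf n (fun k => pt c (((k : ℕ) + 1 : ℝ) / ((n + 1 : ℕ) : ℝ))) t = pt c (g (k + 1)) := by
      unfold stepf
      rw [← hk, hg, hN]
      push_cast
      rfl
    rw [e0]
    have ha0 : Y T + 1 ≤ y (g k) + 1 := by have := hyT _ (hg0 k); omega
    have ha1 : y (g k) + 1 ≤ y t + 1 := by have := hym h1'; omega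
    have ha2 : y t + 1 ≤ y (g (k + 1)) + 1 := by have := hym h2'; omega
    have h3 := hpath T l hT hL t ht0 c
    have h4 := hpath T l hT hL (g (k + 1)) (hg0 _) c
    rw [hyt] at h3 h4
    have h5 : ∀ s, y (g k) + 1 ≤ s → s ≤ y (g (k + 1)) + 1 → |SS Z (y (g k) + 1) s c| ≤ lam := by
      intro s hs1 hs2
      have h6 := (hM2 k c s hs1 hs2).trans (hc k)
      have h7 : |SS Z (y (g k) + 1) s c| ^ 4 ≤ lam ^ 4 := by
        rw [pow_abs, abs_of_nonneg (by positivity)]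
        exact h6
      exact le_of_pow_le_pow_left₀ (by norm_num) hlam0.le h7
    have h8 := h5 _ ha1 ha2
    have h9 := h5 _ (ha1.trans ha2) le_rfl
    have e3 := SS_add (Z := Z) ha0 ha1 c
    have h1b : y (g k) + 1 ≤ y (g (k + 1)) + 1 := ha1.trans ha2
    have e2 := SS_add (Z := Z) ha0 h1b c
    rw [← hq] at h3 h4
    have h10 : |q * (pt c t - pt c (g (k + 1)))| ≤ δ * q := by
      rw [hpt]
      dsimp only
      rw [abs_le] at h3 h4 h8 h9 ⊢
      rw [e3] at h3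
      rw [e2] at h4
      have h11 : 2 * lam + 2 * Kp ≤ δ * q := by
        rw [hlam]
        linarith
      constructor <;> linarith [h3.1, h3.2, h4.1, h4.2, h8.1, h8.2, h9.1, h9.2]
    rw [abs_mul, abs_of_pos hq0] at h10
    have h12 : q * |pt c t - pt c (g (k + 1))| ≤ q * δ := by linarith
    exact le_of_mul_le_mul_left h12 hq0
  rw [← EB_sub']
  refine (EB_abs' H _).trans ?_
  have hmaj : ∀ c, |Φ (path Q κ T l c) - Φ (stepf n (fun k => path Q κ T l c (((k : ℕ) + 1 : ℝ) / ((n + 1 : ℕ) : ℝ))))| ≤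
      ∑ k : Fin (n + 1), (Kf * δ / N + 2 * Mb / lam ^ 4 * Mk k c) := by
    intro c
    have e : ∑ k : Fin (n + 1), (Kf * δ / N + 2 * Mb / lam ^ 4 * Mk k c) = Kf * δ + ∑ k, 2 * Mb / lam ^ 4 * Mk k c := by
      rw [Finset.sum_add_distrib, Finset.sum_const, Finset.card_univ, Fintype.card_fin, nsmul_eq_mul, ← hN]
      congr 1
      field_simp
    rw [e]
    have h0 : 0 ≤ ∑ k, 2 * Mb / lam ^ 4 * Mk k c := Finset.sum_nonneg fun k _ => by
      have := hMk0 k c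
      positivity
    by_cases hc : ∀ k, Mk k c ≤ lam ^ 4
    · have h1 := hΦ.lip (path Q κ T l c) (stepf n (fun k => path Q κ T l c (((k : ℕ) + 1 : ℝ) / ((n + 1 : ℕ) : ℝ)))) δ hδ.le
        (fun t ht0 ht1 => by
          have := hosc c hc t ht0 ht1
          rw [hpt] at this
          exact this)
      linarith
    · push Not at hc
      obtain ⟨k, hk⟩ := hc
      have h1 : 2 * Mb ≤ 2 * Mb / lam ^ 4 * Mk k c := by
        rw [div_mul_eq_mul_div, le_div_iff₀ (by positivity)]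
        exact mul_le_mul_of_nonneg_left hk.le (by positivity)
      have h2 : 2 * Mb / lam ^ 4 * Mk k c ≤ ∑ k, 2 * Mb / lam ^ 4 * Mk k c :=
        Finset.single_le_sum (f := fun k => 2 * Mb / lam ^ 4 * Mk k c) (fun i _ => by
          have := hMk0 i c
          positivity) (Finset.mem_univ k)
      have h3 := hΦ.diff (path Q κ T l c) (stepf n (fun k => path Q κ T l c (((k : ℕ) + 1 : ℝ) / ((n + 1 : ℕ) : ℝ))))
      have h4 : 0 ≤ Kf * δ := by positivity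
      linarith
  refine (EB_mono' H _ _ hmaj).trans ?_
  rw [EB_sum']
  have hone : ∀ k ∈ (Finset.univ : Finset (Fin (n + 1))), EB H (fun c => Kf * δ / N + 2 * Mb / lam ^ 4 * Mk k c) ≤
      Kf * δ / N + 2 * Mb / lam ^ 4 * (2916 * (91 * B ^ 4) * (2 * l / N) ^ 2) := by
    intro k _
    have e : EB H (fun c => Kf * δ / N + 2 * Mb / lam ^ 4 * Mk k c) = Kf * δ / N + 2 * Mb / lam ^ 4 * EB H (Mk k) := by
      have e1 : (fun c => Kf * δ / N + 2 * Mb / lam ^ 4 * Mk k c) = fun c => (fun _ => Kf * δ / N) c - (fun c => (-(2 * Mb / lam ^ 4)) * Mk k c) c := by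
        funext c; ring
      rw [e1, EB_sub', EB_mul', EB_const]
      ring
    rw [e]
    have h1 := hM1 k
    gcongr
  refine (Finset.sum_le_sum hone).trans ?_
  rw [Finset.sum_const, Finset.card_univ, Fintype.card_fin, nsmul_eq_mul, ← hN, ← hqq, hlam]
  apply le_of_eq
  field_simp
  ring

end Pool.Agent.V5helper57.Win
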