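import Pool.Agent.X280.HG.Law
import Pool.Agent.X280.BP.GaussFam

/-!
# The time scale `log log` and windows
-/

set_option autoImplicit false

namespace Pool.Agent.V5helper57.Win

open Finset Filter Topology Pool.Agent.Y722.HS Pool.Agent.X280.BP

/-- The integer part of `exp (exp u)`. -/
noncomputable def Y (u : ℝ) : ℕ := ⌊Real.exp (Real.exp u)⌋₊

theorem Y_two {u : ℝ} (hu : 0 ≤ u) : 2 ≤ Y u := by
  unfold Y
  apply Nat.le_floor
  have h1 : (1 : ℝ) ≤ Real.exp u := Real.one_le_exp hu
  have h2 : Real.exp 1 ≤ Real.exp (Real.exp u) := Real.exp_le_exp.2 h1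
  have h3 := Real.exp_one_gt_d9
  push_cast
  linarith

theorem Y_mono {s t : ℝ} (h : s ≤ t) : Y s ≤ Y t := by
  unfold Y
  apply Nat.floor_le_floor
  apply Real.exp_le_exp.2
  exact Real.exp_le_exp.2 h

theorem Y_min (s t : ℝ) : min (Y s) (Y t) = Y (min s t) := by
  rcases le_total s t with h | h
  · rw [min_eq_left h, min_eq_left (Y_mono h)]
  · rw [min_eq_right h, min_eq_right (Y_mono h)]

theorem tendsto_Y : Tendsto Y atTop atTop :=
  tendsto_nat_floor_atTop.comp (Real.tendsto_exp_atTop.comp Real.tendsto_exp_atTop)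

/-- A property of all large integers holds for `Y (T + l)` for all `T ≥ 0` and all large `l`. -/
theorem ev_Y {p : ℕ → Prop} (h : ∀ᶠ x : ℕ in atTop, p x) : ∀ᶠ l : ℝ in atTop, ∀ T : ℝ, 0 ≤ T → p (Y (T + l)) := by
  rw [Filter.eventually_atTop] at h
  obtain ⟨X, hX⟩ := h
  filter_upwards [tendsto_Y.eventually_ge_atTop X] with l hl T hT
  exact hX _ (hl.trans (Y_mono (by linarith)))

/-- The double logarithm of the integer part. -/
theorem Lg_Y {s : ℝ} (hs0 : 0 ≤ s) (h3 : 3 ≤ Y s) : |Lg (Y s) - s| ≤ 1 := by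
  obtain ⟨m, hm⟩ : ∃ m : ℕ, m = Y s := ⟨_, rfl⟩
  rw [← hm]
  rw [← hm] at h3
  have hm' : m = ⌊Real.exp (Real.exp s)⌋₊ := by rw [hm]; rfl
  have hz0 : 0 < Real.exp (Real.exp s) := Real.exp_pos _
  have h1 : (m : ℝ) ≤ Real.exp (Real.exp s) := by rw [hm']; exact Nat.floor_le hz0.le
  have h2 : Real.exp (Real.exp s) < m + 1 := by rw [hm']; exact Nat.lt_floor_add_one _
  have hm3 : (3 : ℝ) ≤ m := by exact_mod_cast h3
  have hlm : 0 < Real.log m := Real.log_pos (by linarith)
  have hes : 1 ≤ Real.exp s := Real.one_le_exp hs0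
  have h4 : Real.log m ≤ Real.exp s := by
    rw [Real.log_le_iff_le_exp (by linarith)]
    exact h1
  have h5 : Real.exp s / 2 ≤ Real.log m := by
    have h6 : Real.exp s < Real.log (m + 1) := by
      rw [Real.lt_log_iff_exp_lt (by linarith)]
      exact h2
    have h7 : Real.log (m + 1) ≤ 2 * Real.log m := by
      rw [show (2 : ℝ) * Real.log m = Real.log ((m : ℝ) ^ 2) by rw [Real.log_pow]; norm_num]
      apply Real.log_le_log (by linarith)
      nlinarith
    linarith
  have hup : Lg m ≤ s := by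
    unfold Lg
    rw [Real.log_le_iff_le_exp hlm]
    exact h4
  have hlow : s - 1 ≤ Lg m := by
    unfold Lg
    rw [Real.le_log_iff_exp_le hlm]
    refine le_trans ?_ h5
    rw [Real.exp_sub, div_le_div_iff₀ (Real.exp_pos _) (by norm_num)]
    have h8 : (2 : ℝ) ≤ Real.exp 1 := by
      have := Real.exp_one_gt_d9
      linarith
    have := Real.exp_pos s
    nlinarith
  rw [abs_le]
  constructor <;> linarith

/-- **The sums of `1 / p` on the time scale.** -/
theorem LL_Y : ∃ C : ℝ, 0 ≤ C ∧ ∀ u : ℝ, 0 ≤ u → |LL 0 (Y u + 1) - u| ≤ C := by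
  obtain ⟨C1, hC1, h⟩ := LL_Lg
  refine ⟨C1 + 1 + LL 0 3 + 1, by have := LL_nonneg 0 3; positivity, fun u hu => ?_⟩
  have hLL3 := LL_nonneg 0 3
  by_cases h3 : 3 ≤ Y u
  · have h1 := h (Y u) h3
    have h2 := Lg_Y hu h3
    have e : LL 0 (Y u + 1) - u = (LL 0 (Y u + 1) - Lg (Y u)) + (Lg (Y u) - u) := by
      ring
    rw [e]
    refine (abs_add_le _ _).trans ?_
    linarith
  · have h2 := Y_two hu
    have e : Y u = 2 := by omega
    have h4 : Real.exp (Real.exp u) < 3 := by
      have h5 := Nat.lt_floor_add_one (Real.exp (Real.exp u))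
      have h6 : ⌊Real.exp (Real.exp u)⌋₊ = 2 := e
      rw [h6] at h5
      push_cast at h5
      linarith
    have h7 : u ≤ 1 := by
      by_contra hcon
      push Not at hcon
      have h8 : Real.exp 1 ≤ Real.exp u := Real.exp_le_exp.2 hcon.le
      have h9 : (2 : ℝ) ≤ Real.exp 1 := by
        have := Real.exp_one_gt_d9
        linarith
      have h10 : Real.exp 2 ≤ Real.exp (Real.exp u) := Real.exp_le_exp.2 (by linarith)
      have h11 : (4 : ℝ) ≤ Real.exp 2 := by
        have h12 : Real.exp 2 = Real.exp 1 * Real.exp 1 := by rw [← Real.exp_add]; norm_num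
        rw [h12]
        nlinarith
      linarith
    rw [e]
    rw [abs_le]
    constructor <;> linarith

end Pool.Agent.V5helper57.Win
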