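import Pool.Agent.V5helper57.Win.Brown

/-!
# Convergence of the finite dimensional distributions
-/

set_option autoImplicit false

namespace Pool.Agent.V5helper57.Win

open Finset Filter Topology MeasureTheory ProbabilityTheory Pool.Agent.Y722.HS Pool.Agent.X280.BP
open scoped NNReal ENNReal

variable {ι : Type} [Fintype ι] [DecidableEq ι]

/-- The law of a vector valued function of the integral vectors in the box. -/
noncomputable def lawE {n : ℕ} (H : ℕ) (v : (ι → ℤ) → (Fin n → ℝ)) : Measure (EuclideanSpace ℝ (Fin n)) :=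
  ∑ c ∈ Pool.Agent.Y722.HS.box ι H, ENNReal.ofReal (1 / (2 * H + 1 : ℝ) ^ Fintype.card ι) •
    Measure.dirac (WithLp.toLp 2 (v c))

instance lawE_prob {n : ℕ} (H : ℕ) (v : (ι → ℤ) → (Fin n → ℝ)) : IsProbabilityMeasure (lawE H v) := by
  constructor
  unfold lawE
  rw [Measure.finsetSum_apply]
  have h1 : ∀ c ∈ Pool.Agent.Y722.HS.box ι H,
      (ENNReal.ofReal (1 / (2 * H + 1 : ℝ) ^ Fintype.card ι) • Measure.dirac (WithLp.toLp 2 (v c) : EuclideanSpace ℝ (Fin n))) Set.univ =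
      ENNReal.ofReal (1 / (2 * H + 1 : ℝ) ^ Fintype.card ι) := by
    intro c _
    rw [Measure.smul_apply, Measure.dirac_apply' _ MeasurableSet.univ, smul_eq_mul]
    simp
  rw [Finset.sum_congr rfl h1, ← ENNReal.ofReal_sum_of_nonneg (fun c _ => by positivity), Finset.sum_const,
    nsmul_eq_mul, card_box, mul_one_div, div_self (by positivity), ENNReal.ofReal_one]

theorem lawE_integral {n : ℕ} {F : Type*} [NormedAddCommGroup F] [NormedSpace ℝ F] [CompleteSpace F] (H : ℕ)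
    (v : (ι → ℤ) → (Fin n → ℝ)) (f : EuclideanSpace ℝ (Fin n) → F) :
    ∫ z, f z ∂(lawE H v) = ∑ c ∈ Pool.Agent.Y722.HS.box ι H, (1 / (2 * H + 1 : ℝ) ^ Fintype.card ι) • f (WithLp.toLp 2 (v c)) := by
  unfold lawE
  rw [integral_finsetSum_measure]
  · refine Finset.sum_congr rfl fun c _ => ?_
    rw [integral_smul_measure, integral_dirac, ENNReal.toReal_ofReal (by positivity)]
  · intro c _
    apply Integrable.smul_measure _ ENNReal.ofReal_ne_top
    exact integrable_dirac (by simp [enorm_lt_top])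

theorem lawE_real {n : ℕ} (H : ℕ) (v : (ι → ℤ) → (Fin n → ℝ)) (g : (Fin n → ℝ) → ℝ) :
    ∫ z, g (WithLp.ofLp z) ∂(lawE H v) = EB H (fun c => g (v c)) := by
  rw [lawE_integral]
  unfold EB
  rw [Finset.sum_div]
  refine Finset.sum_congr rfl fun c _ => ?_
  rw [smul_eq_mul]
  ring

theorem lawE_char {n : ℕ} (H : ℕ) (v : (ι → ℤ) → (Fin n → ℝ)) (τ : EuclideanSpace ℝ (Fin n)) :
    charFun (lawE H v) τ = EBc H (fun c => Complex.exp (((∑ k, τ k * v c k : ℝ) : ℂ) * Complex.I)) := by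
  rw [charFun_apply, lawE_integral]
  unfold EBc
  rw [Finset.sum_div]
  refine Finset.sum_congr rfl fun c _ => ?_
  rw [Complex.real_smul]
  have e : inner ℝ (WithLp.toLp 2 (v c) : EuclideanSpace ℝ (Fin n)) τ = ∑ k, τ k * v c k := by
    rw [PiLp.inner_apply]
    refine Finset.sum_congr rfl fun k _ => ?_
    simp
  rw [e]
  push_cast
  ring

variable {Z : ∀ p : ℕ, (ι → ZMod p) → ℝ} {B κ K0 K1 : ℝ} {Q : ℕ → (ι → ℤ) → ℝ}
variable {Ω : Type*} [MeasurableSpace Ω] {P : Measure Ω} {W : ℝ≥0 → Ω → ℝ}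

theorem EBc_one (H : ℕ) : EBc H (fun _ : ι → ℤ => (1 : ℂ)) = 1 := by
  classical
  unfold EBc
  rw [Finset.sum_const, nsmul_eq_mul, mul_one]
  have h : ((Pool.Agent.Y722.HS.box ι H).card : ℂ) = (((2 * H + 1 : ℝ) ^ Fintype.card ι : ℝ) : ℂ) := by
    rw [← card_box]; push_cast; rfl
  rw [h]
  push_cast
  exact div_self (by norm_cast; positivity)

/-- The grid. -/
noncomputable def gr (n : ℕ) (k : Fin n) : ℝ≥0 := ((k : ℕ) + 1 : ℝ≥0) / n

theorem gr_coe (n : ℕ) : (fun k : Fin n => ((gr n k : ℝ≥0) : ℝ)) = fun k : Fin n => ((k : ℕ) + 1 : ℝ) / n := by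
  funext k; unfold gr; push_cast; rfl

theorem gr_pos {n : ℕ} (hn : 0 < n) (k : Fin n) : 0 < ((k : ℕ) + 1 : ℝ) / n := by
  have : (0 : ℝ) < n := by exact_mod_cast hn
  positivity

theorem gr_le {n : ℕ} (k : Fin n) : ((k : ℕ) + 1 : ℝ) / n ≤ 1 := by
  have h1 : (0 : ℝ) < n := by exact_mod_cast (lt_of_le_of_lt (Nat.zero_le _) k.2)
  rw [div_le_one h1]
  exact_mod_cast k.2

/-- **Convergence of the finite dimensional distributions.** -/
theorem Model.fdd (M : Model Z B κ K0 K1 Q) (hW : IsPreBrownianReal W P) {n : ℕ} (hn : 0 < n) (g : (Fin n → ℝ) → ℝ)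
    (hg : Continuous g) {Mb : ℝ} (hMb : ∀ v, |g v| ≤ Mb) {ε : ℝ} (hε : 0 < ε) :
    ∀ᶠ l : ℝ in atTop, ∀ T : ℝ, 0 ≤ T → ∀ H : ℕ, Y (T + l) ^ 11 ≤ H →
      |EB H (fun c => g (fun k => path Q κ T l c (((k : ℕ) + 1 : ℝ) / n))) - ∫ ω, g (fun k => W (gr n k) ω) ∂P| ≤ ε := by
  classical
  by_contra hcon
  rw [Filter.eventually_atTop] at hcon
  push Not at hcon
  choose ls hls Ts hTs Hs hHs hbad using fun j : ℕ => hcon (j : ℝ)
  have hPr : IsProbabilityMeasure P := hW.isGaussianProcess.isProbabilityMeasure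
  obtain ⟨v, hv⟩ : ∃ v : ℕ → (ι → ℤ) → (Fin n → ℝ), v = fun j c (k : Fin n) => path Q κ (Ts j) (ls j) c (((k : ℕ) + 1 : ℝ) / n) := ⟨_, rfl⟩
  have hm0 : AEMeasurable (fun ω => (fun k => W (gr n k) ω : Fin n → ℝ)) P :=
    aemeasurable_pi_lambda _ fun k => hW.aemeasurable _
  have hmeas : AEMeasurable (fun ω => (WithLp.toLp 2 (fun k => W (gr n k) ω) : EuclideanSpace ℝ (Fin n))) P :=
    (WithLp.measurable_toLp 2 (Fin n → ℝ)).comp_aemeasurable hm0
  obtain ⟨ν0, hν0⟩ : ∃ ν0 : Measure (EuclideanSpace ℝ (Fin n)),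
    ν0 = P.map (fun ω => (WithLp.toLp 2 (fun k => W (gr n k) ω) : EuclideanSpace ℝ (Fin n))) := ⟨_, rfl⟩
  have hν0P : IsProbabilityMeasure ν0 := by rw [hν0]; exact Measure.isProbabilityMeasure_map hmeas
  obtain ⟨μ, hμ⟩ : ∃ μ : ℕ → ProbabilityMeasure (EuclideanSpace ℝ (Fin n)),
    μ = fun j => ⟨lawE (Hs j) (v j), inferInstance⟩ := ⟨_, rfl⟩
  obtain ⟨ν, hν⟩ : ∃ ν : ProbabilityMeasure (EuclideanSpace ℝ (Fin n)), ν = ⟨ν0, hν0P⟩ := ⟨_, rfl⟩
  have hlst : Tendsto ls atTop atTop := tendsto_atTop_mono hls tendsto_natCast_atTop_atTop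
  have hcharν : ∀ τ : EuclideanSpace ℝ (Fin n), charFun ν0 τ =
      ((Real.exp (-(vlim (fun k => τ k) (fun k : Fin n => ((k : ℕ) + 1 : ℝ) / n) / 2)) : ℝ) : ℂ) := by
    intro τ
    have hvl : 0 ≤ vlim (fun k => τ k) (fun k => ((gr n k : ℝ≥0) : ℝ)) := by
      rw [gr_coe, vlim_sq]
      positivity
    have h1 := comb_char hW (fun k => τ k) (gr n) hvl
    rw [gr_coe] at h1
    rw [← h1, hν0, charFun_apply, integral_map hmeas (by fun_prop)]
    refine integral_congr_ae (Filter.Eventually.of_forall fun ω => ?_)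
    have e : inner ℝ (WithLp.toLp 2 (fun k => W (gr n k) ω) : EuclideanSpace ℝ (Fin n)) τ = ∑ k, τ k * W (gr n k) ω := by
      rw [PiLp.inner_apply]
      refine Finset.sum_congr rfl fun k _ => ?_
      simp
    simp only [e]
  have hconv : Tendsto μ atTop (𝓝 ν) := by
    rw [ProbabilityMeasure.tendsto_iff_tendsto_charFun]
    intro τ
    rw [hν, hμ]
    change Tendsto (fun j => charFun (lawE (Hs j) (v j)) τ) atTop (𝓝 (charFun ν0 τ))
    rw [hcharν τ]
    simp only [lawE_char]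
    by_cases hτ : (fun k => τ k) = 0
    · rw [hτ, vlim_zero]
      have h0 : ∀ k, τ k = 0 := fun k => congrFun hτ k
      have e : ∀ j, EBc (Hs j) (fun c => Complex.exp (((∑ k, τ k * v j c k : ℝ) : ℂ) * Complex.I)) = 1 := by
        intro j
        simp only [h0, zero_mul, Finset.sum_const_zero, Complex.ofReal_zero, Complex.exp_zero]
        exact EBc_one _
      simp only [e]
      simp
    · have hv0 := vlim_pos hn _ hτ
      rw [Metric.tendsto_atTop]
      intro δ hδ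
      have h1 := M.char_lim (fun k => τ k) (fun k : Fin n => ((k : ℕ) + 1 : ℝ) / n) (gr_pos hn) gr_le hv0 (half_pos hδ)
      have h2 := hlst.eventually h1
      rw [Filter.eventually_atTop] at h2
      obtain ⟨N, hN⟩ := h2
      refine ⟨N, fun j hj => ?_⟩
      rw [dist_eq_norm, hv]
      exact lt_of_le_of_lt (hN j hj (Ts j) (hTs j) (Hs j) (hHs j)) (by linarith)
  rw [ProbabilityMeasure.tendsto_iff_forall_integral_tendsto] at hconv
  have hgc : Continuous (fun z : EuclideanSpace ℝ (Fin n) => g (WithLp.ofLp z)) :=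
    hg.comp (PiLp.continuous_ofLp 2 _)
  have h := hconv (BoundedContinuousFunction.ofNormedAddCommGroup (fun z : EuclideanSpace ℝ (Fin n) => g (WithLp.ofLp z)) hgc Mb
    (fun z => by rw [Real.norm_eq_abs]; exact hMb _))
  simp only [BoundedContinuousFunction.coe_ofNormedAddCommGroup, hμ, hν] at h
  change Tendsto (fun j => ∫ z, g (WithLp.ofLp z) ∂(lawE (Hs j) (v j))) atTop (𝓝 (∫ z, g (WithLp.ofLp z) ∂ν0)) at h
  simp only [lawE_real] at h
  rw [hν0, integral_map hmeas hgc.aestronglyMeasurable] at h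
  rw [Metric.tendsto_atTop] at h
  obtain ⟨N, hN⟩ := h ε hε
  have h6 := hN N le_rfl
  rw [Real.dist_eq, hv] at h6
  have h7 := hbad N
  linarith

end Pool.Agent.V5helper57.Win
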